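import Pool.Agent.W9h56.BE.Speed

/-!
# Concatenation of curves
-/

open Set Metric Filter Topology MeasureTheory
open scoped ContDiff RealInnerProductSpace ENNReal

noncomputable section

set_option maxSynthPendingDepth 3

namespace Pool.Agent.W9h56.BE

open Pool.Agent.W5h72.BR

/-- the square of the positive part -/
def mm (x : ℝ) : ℝ := (max 0 x) ^ 2

lemma mm_eq (x : ℝ) : mm x = x * max 0 x := by
  rw [mm]
  rcases le_total 0 x with h | h
  · rw [max_eq_right h]; ring
  · rw [max_eq_left h]; ring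

lemma hasDerivAt_mm (x : ℝ) : HasDerivAt mm (2 * max 0 x) x := by
  rcases lt_trichotomy x 0 with h | h | h
  · rw [max_eq_left h.le, mul_zero]
    refine (hasDerivAt_const x (0 : ℝ)).congr_of_eventuallyEq ?_
    filter_upwards [gt_mem_nhds h] with y hy
    rw [mm, max_eq_left (le_of_lt hy)]; ring
  · subst h
    rw [max_self, mul_zero, hasDerivAt_iff_tendsto_slope]
    have h1 : Tendsto (fun y : ℝ => max 0 y) (𝓝[≠] 0) (𝓝 0) := by
      have h2 : Continuous fun y : ℝ => max 0 y := by fun_prop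
      have h3 := h2.tendsto 0
      rw [max_self] at h3
      exact h3.mono_left nhdsWithin_le_nhds
    refine h1.congr' ?_
    filter_upwards [self_mem_nhdsWithin] with y hy
    have hy0 : y ≠ 0 := hy
    rw [slope_def_field, mm_eq, mm_eq, max_self, mul_zero, sub_zero, sub_zero,
      mul_div_cancel_left₀ _ hy0]
  · rw [max_eq_right h.le]
    have h1 : HasDerivAt (fun y : ℝ => y ^ 2) (2 * x) x := by
      simpa using hasDerivAt_pow 2 x
    refine h1.congr_of_eventuallyEq ?_
    filter_upwards [lt_mem_nhds h] with y hy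
    rw [mm, max_eq_right (le_of_lt hy)]

lemma mm_mem {x : ℝ} (hx : x ≤ 1) : mm x ∈ Icc (0 : ℝ) 1 := by
  have h1 : 0 ≤ max 0 x := le_max_left _ _
  have h2 : max 0 x ≤ 1 := max_le zero_le_one hx
  exact ⟨sq_nonneg _, by rw [mm]; nlinarith⟩

lemma mm_nonpos {x : ℝ} (hx : x ≤ 0) : mm x = 0 := by
  rw [mm, max_eq_left hx]; ring

lemma mm_nonneg {x : ℝ} (hx : 0 ≤ x) : mm x = x ^ 2 := by
  rw [mm, max_eq_right hx]

variable {E : Type*} [NormedAddCommGroup E] [InnerProductSpace ℝ E]

variable {g g' : E → E →L[ℝ] E →L[ℝ] ℝ} {e L e' L' : E → E → E} {φ : E → E}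

/-- concatenation -/
lemma gdist_le_add (hg : Continuous g') {a b c : E} {c1 c1' c2 c2' : ℝ → E}
    (h1 : IsCurve c1 c1' b a) (h2 : IsCurve c2 c2' b c) :
    gdist g' a c ≤ length g' c1 c1' + length g' c2 c2' := by
  set C : ℝ → E := fun t => c1 (mm (1 - 2 * t)) + c2 (mm (2 * t - 1)) - b with hC
  set C' : ℝ → E := fun t => (-(4 * max 0 (1 - 2 * t))) • c1' (mm (1 - 2 * t)) +
    (4 * max 0 (2 * t - 1)) • c2' (mm (2 * t - 1)) with hC'
  have hm1 : ∀ t ∈ Icc (0 : ℝ) 1, mm (1 - 2 * t) ∈ Icc (0 : ℝ) 1 := fun t ht =>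
    mm_mem (by linarith [ht.1])
  have hm2 : ∀ t ∈ Icc (0 : ℝ) 1, mm (2 * t - 1) ∈ Icc (0 : ℝ) 1 := fun t ht =>
    mm_mem (by linarith [ht.2])
  have hl : ∀ t ≤ (1 / 2 : ℝ), C t = c1 (mm (1 - 2 * t)) := fun t ht => by
    simp only [hC]
    rw [mm_nonpos (show 2 * t - 1 ≤ 0 by linarith), h2.start]; abel
  have hr : ∀ t ≥ (1 / 2 : ℝ), C t = c2 (mm (2 * t - 1)) := fun t ht => by
    simp only [hC]
    rw [mm_nonpos (show 1 - 2 * t ≤ 0 by linarith), h1.start]; abel
  have hl' : ∀ t ≤ (1 / 2 : ℝ), C' t = (-(4 * (1 - 2 * t))) • c1' (mm (1 - 2 * t)) :=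
    fun t ht => by
    simp only [hC']
    rw [max_eq_left (show 2 * t - 1 ≤ 0 by linarith),
      max_eq_right (show 0 ≤ 1 - 2 * t by linarith), mul_zero, zero_smul, add_zero]
  have hr' : ∀ t ≥ (1 / 2 : ℝ), C' t = (4 * (2 * t - 1)) • c2' (mm (2 * t - 1)) := fun t ht => by
    simp only [hC']
    rw [max_eq_left (show 1 - 2 * t ≤ 0 by linarith),
      max_eq_right (show 0 ≤ 2 * t - 1 by linarith), mul_zero, neg_zero, zero_smul, zero_add]
  have hmc : Continuous mm := continuous_iff_continuousAt.2 fun x => (hasDerivAt_mm x).continuousAt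
  have hcurve : IsCurve C C' a c := by
    refine ⟨fun t ht => ?_, fun t ht => ?_, ?_, ?_, ?_⟩
    · rcases le_total t (1 / 2) with h | h
      · rw [hl t h]; exact h1.mem _ (hm1 t ht)
      · rw [hr t h]; exact h2.mem _ (hm2 t ht)
    · have d1 : HasDerivAt (fun t : ℝ => mm (1 - 2 * t)) (-(4 * max 0 (1 - 2 * t))) t := by
        have k1 : HasDerivAt (fun t : ℝ => 1 - 2 * t) (-2) t := by
          have := ((hasDerivAt_id t).const_mul 2).const_sub 1
          simpa using this
        refine ((hasDerivAt_mm (1 - 2 * t)).comp t k1).congr_deriv ?_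
        ring
      have d2 : HasDerivAt (fun t : ℝ => mm (2 * t - 1)) (4 * max 0 (2 * t - 1)) t := by
        have k1 : HasDerivAt (fun t : ℝ => 2 * t - 1) 2 t := by
          have := ((hasDerivAt_id t).const_mul 2).sub_const 1
          simpa using this
        refine ((hasDerivAt_mm (2 * t - 1)).comp t k1).congr_deriv ?_
        ring
      have k1 := HasDerivWithinAt.scomp t (h1.der _ (hm1 t ht)) d1.hasDerivWithinAt
        (fun s hs => hm1 s hs)
      have k2 := HasDerivWithinAt.scomp t (h2.der _ (hm2 t ht)) d2.hasDerivWithinAt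
        (fun s hs => hm2 s hs)
      exact (k1.add k2).sub_const b
    · have k1 : ContinuousOn (fun t => c1' (mm (1 - 2 * t))) (Icc 0 1) :=
        h1.cont.comp (hmc.comp (by fun_prop)).continuousOn hm1
      have k2 : ContinuousOn (fun t => c2' (mm (2 * t - 1))) (Icc 0 1) :=
        h2.cont.comp (hmc.comp (by fun_prop)).continuousOn hm2
      have k3 : Continuous fun t : ℝ => -(4 * max 0 (1 - 2 * t)) := by fun_prop
      have k4 : Continuous fun t : ℝ => 4 * max 0 (2 * t - 1) := by fun_prop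
      exact (k3.continuousOn.smul k1).add (k4.continuousOn.smul k2)
    · rw [hl 0 (by norm_num), mul_zero, sub_zero, mm_nonneg zero_le_one, one_pow, h1.finish]
    · rw [hr 1 (by norm_num), mul_one, show (2 : ℝ) - 1 = 1 by norm_num, mm_nonneg zero_le_one,
        one_pow, h2.finish]
  refine (gdist_le_length hcurve).trans (le_of_eq ?_)
  set k1 : ℝ → ℝ := fun t => √(g' (c1 t) (c1' t) (c1' t)) with hk1
  set k2 : ℝ → ℝ := fun t => √(g' (c2 t) (c2' t) (c2' t)) with hk2
  have cc : ∀ {c c' : ℝ → E} {a b : E}, IsCurve c c' a b →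
      ContinuousOn (fun t => √(g' (c t) (c' t) (c' t))) (Icc 0 1) := fun hc =>
    (((hg.comp_continuousOn fun t ht => (hc.der t ht).continuousWithinAt).clm_apply
      hc.cont).clm_apply hc.cont).sqrt
  have i0 : ContinuousOn (fun t => √(g' (C t) (C' t) (C' t))) (Icc 0 1) := cc hcurve
  have s1 : ∫ t in (0 : ℝ)..(1 / 2), √(g' (C t) (C' t) (C' t)) = ∫ t in (0 : ℝ)..1, k1 t := by
    have e1 : ∫ t in (0 : ℝ)..(1 / 2), √(g' (C t) (C' t) (C' t)) =
        ∫ t in (0 : ℝ)..(1 / 2), -((k1 ∘ fun t => (1 - 2 * t) ^ 2) t * (-(4 * (1 - 2 * t)))) := by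
      refine intervalIntegral.integral_congr fun t ht => ?_
      rw [uIcc_of_le (by norm_num)] at ht
      have h3 : 0 ≤ 1 - 2 * t := by linarith [ht.2]
      rw [hl t ht.2, hl' t ht.2, mm_nonneg h3]
      simp only [map_smul, smul_apply, smul_eq_mul, Function.comp, hk1]
      rw [← mul_assoc, show -(4 * (1 - 2 * t)) * -(4 * (1 - 2 * t)) =
        (4 * (1 - 2 * t)) ^ 2 by ring, Real.sqrt_mul (sq_nonneg _), Real.sqrt_sq (by positivity)]
      ring
    rw [e1, intervalIntegral.integral_neg,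
      intervalIntegral.integral_comp_mul_deriv'' (f := fun t : ℝ => (1 - 2 * t) ^ 2)
        (f' := fun t : ℝ => -(4 * (1 - 2 * t))) (g := k1)]
    · rw [intervalIntegral.integral_symm]
      norm_num
    · fun_prop
    · intro t _
      have k1 : HasDerivAt (fun t : ℝ => 1 - 2 * t) (-2) t := by
        have := ((hasDerivAt_id t).const_mul 2).const_sub 1
        simpa using this
      exact ((k1.pow 2).congr_deriv (by norm_num; ring)).hasDerivWithinAt
    · fun_prop
    · refine (cc h1).mono ?_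
      rintro _ ⟨t, ht, rfl⟩
      rw [uIcc_of_le (by norm_num)] at ht
      constructor
      · positivity
      · nlinarith [ht.1, ht.2]
  have s2 : ∫ t in (1 / 2 : ℝ)..1, √(g' (C t) (C' t) (C' t)) = ∫ t in (0 : ℝ)..1, k2 t := by
    have e1 : ∫ t in (1 / 2 : ℝ)..1, √(g' (C t) (C' t) (C' t)) =
        ∫ t in (1 / 2 : ℝ)..1, (k2 ∘ fun t => (2 * t - 1) ^ 2) t * (4 * (2 * t - 1)) := by
      refine intervalIntegral.integral_congr fun t ht => ?_
      rw [uIcc_of_le (by norm_num)] at ht
      have h3 : 0 ≤ 2 * t - 1 := by linarith [ht.1]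
      rw [hr t ht.1, hr' t ht.1, mm_nonneg h3]
      simp only [map_smul, smul_apply, smul_eq_mul, Function.comp, hk2]
      rw [← mul_assoc, show (4 * (2 * t - 1)) * (4 * (2 * t - 1)) =
        (4 * (2 * t - 1)) ^ 2 by ring, Real.sqrt_mul (sq_nonneg _), Real.sqrt_sq (by positivity)]
      ring
    rw [e1, intervalIntegral.integral_comp_mul_deriv'' (f := fun t : ℝ => (2 * t - 1) ^ 2)
        (f' := fun t : ℝ => 4 * (2 * t - 1)) (g := k2)]
    · norm_num
    · fun_prop
    · intro t _
      have k1 : HasDerivAt (fun t : ℝ => 2 * t - 1) 2 t := by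
        have := ((hasDerivAt_id t).const_mul 2).sub_const 1
        simpa using this
      exact ((k1.pow 2).congr_deriv (by norm_num; ring)).hasDerivWithinAt
    · fun_prop
    · refine (cc h2).mono ?_
      rintro _ ⟨t, ht, rfl⟩
      rw [uIcc_of_le (by norm_num)] at ht
      constructor
      · positivity
      · nlinarith [ht.1, ht.2]
  rw [length, length, length, ← s1, ← s2, intervalIntegral.integral_add_adjacent_intervals]
  · refine ContinuousOn.intervalIntegrable ?_
    rw [uIcc_of_le (by norm_num)]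
    exact i0.mono (Icc_subset_Icc_right (by norm_num))
  · refine ContinuousOn.intervalIntegrable ?_
    rw [uIcc_of_le (by norm_num)]
    exact i0.mono (Icc_subset_Icc_left (by norm_num))

/-- the image of a curve -/
lemma curve_comp (hφ : IsBdryMap φ) {γ u : ℝ → E} {a b : E} (hc : IsCurve γ u a b) :
    IsCurve (fun t => φ (γ t)) (fun t => fderiv ℝ φ (γ t) (u t)) (φ a) (φ b) := by
  have hfc : Continuous (fderiv ℝ φ) := hφ.smooth.continuous_fderiv (by norm_num)
  have hγc : ContinuousOn γ (Icc 0 1) := fun t ht => (hc.der t ht).continuousWithinAt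
  refine ⟨fun t ht => hφ.maps (hc.mem t ht), fun t ht => ?_, ?_, ?_, ?_⟩
  · exact HasFDerivAt.comp_hasDerivWithinAt (f := γ) (l := φ) t
      ((hφ.smooth.differentiable (by norm_num)) (γ t)).hasFDerivAt (hc.der t ht)
  · exact (hfc.comp_continuousOn hγc).clm_apply hc.cont
  · simp only [hc.start]
  · simp only [hc.finish]

/-- two geodesics from an interior point to the boundary -/
lemma gdist_le_KP (h : Simple g e L) (hg : Continuous g') (hφ : IsBdryMap φ) {x p q : E}
    (hx : x ∈ closedBall (0 : E) 1) (hp : p ∈ sphere (0 : E) 1) (hq : q ∈ sphere (0 : E) 1) :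
    gdist g' p q ≤ KP e L φ g' (x, p) + KP e L φ g' (x, q) := by
  obtain ⟨γ1, u1, k1, k2, -, k3⟩ := h.exists_geod hx (mem_of_sphere hp)
  obtain ⟨γ2, u2, l1, l2, -, l3⟩ := h.exists_geod hx (mem_of_sphere hq)
  have c1 := Simple.isCurve_geod k1
  have c2 := Simple.isCurve_geod l1
  rw [k2, k3] at c1
  rw [l2, l3] at c2
  have d1 := curve_comp hφ c1
  have d2 := curve_comp hφ c2
  rw [hφ.bdry p hp] at d1
  rw [hφ.bdry q hq] at d2
  rw [KP_eq h k1 k2 k3, KP_eq h l1 l2 l3]
  exact gdist_le_add hg d1 d2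

end Pool.Agent.W9h56.BE
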