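import Pool.Agent.W9h56.BE.Ineq

/-!
# The energies and the equality case
-/

open Set Metric Filter Topology MeasureTheory
open scoped ContDiff RealInnerProductSpace ENNReal

noncomputable section

set_option maxSynthPendingDepth 3

namespace Pool.Agent.W9h56.BE

open Pool.Agent.W5h72.BR

variable {E : Type*} [NormedAddCommGroup E] [InnerProductSpace ℝ E] [FiniteDimensional ℝ E]
  [MeasurableSpace E] [BorelSpace E]

variable {g g' : E → E →L[ℝ]
    E →L[ℝ] ℝ}
  {e L e' L' : E → E → E}
  {φ : E → E}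


/-- a nonnegative continuous function on the closed ball with integral `≤ 0` vanishes -/
lemma zero_of_int {f : E → ℝ} (hf : ContinuousOn f (closedBall (0 : E) 1))
    (hf0 : ∀ x ∈ closedBall (0 : E) 1, 0 ≤ f x) (hint : ∫ x in closedBall (0 : E) 1, f x ≤ 0) :
    ∀ x ∈ closedBall (0 : E) 1, f x = 0 := by
  have h1 : ∫ x in closedBall (0 : E) 1, f x = 0 :=
    le_antisymm hint (setIntegral_nonneg measurableSet_closedBall hf0)
  have h2 : ∀ᵐ x ∂(volume.restrict (closedBall (0 : E) 1)), 0 ≤ f x :=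
    (ae_restrict_iff' measurableSet_closedBall).2 (Eventually.of_forall hf0)
  have h3 := (integral_eq_zero_iff_of_nonneg_ae h2 (intOn hf)).1 h1
  have h4 : f =ᵐ[volume.restrict (ball (0 : E) 1)] fun _ => (0 : ℝ) :=
    ae_restrict_of_ae_restrict_of_subset ball_subset_closedBall h3
  have h5 := Measure.eqOn_open_of_ae_eq h4 isOpen_ball (hf.mono ball_subset_closedBall)
    continuousOn_const
  have h6 : EqOn f (fun _ => (0 : ℝ)) (closedBall (0 : E) 1) := by
    refine h5.of_subset_closure hf continuousOn_const ball_subset_closedBall ?_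
    rw [closure_ball (0 : E) one_ne_zero]
  exact h6

/-- from almost everywhere to everywhere -/
lemma all_of_ae {F : Type*} [TopologicalSpace F] [T2Space F] {f k : E → F}
    (hf : ContinuousOn f (closedBall (0 : E) 1)) (hk : ContinuousOn k (closedBall (0 : E) 1))
    (h : ∀ᵐ x ∂(volume.restrict (ball (0 : E) 1)), f x = k x) :
    ∀ x ∈ closedBall (0 : E) 1, f x = k x := by
  have h5 := Measure.eqOn_open_of_ae_eq h isOpen_ball (hf.mono ball_subset_closedBall)
    (hk.mono ball_subset_closedBall)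
  have h6 : EqOn f k (closedBall (0 : E) 1) := by
    refine h5.of_subset_closure hf hk ball_subset_closedBall ?_
    rw [closure_ball (0 : E) one_ne_zero]
  exact h6

/-- equality in the basic inequality -/
theorem mn_ae (hn : 0 < Module.finrank ℝ E) (h : Simple g e L) (hg : IsMetric g') (hφ : IsBdryMap φ)
    (hd : ∀ p ∈ sphere (0 : E) 1, ∀ q ∈ sphere (0 : E) 1, gdist g p q ≤ gdist g' p q)
    {A : E → E ≃ₗ[ℝ] E} (hA : IsFrame g A)
    (hle : ∫ x in closedBall (0 : E) 1, √(ntr (g x) (pull φ g' x)) * dens (g x) ≤ vol g) :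
    ∀ᵐ x ∂(volume.restrict (ball (0 : E) 1)),
      mn (inFrame (pull φ g' x) (A x)) = om E * √(ntr (g x) (pull φ g' x)) := by
  have hgm := Simple_isMetric h
  have h1 := core hn h hg hφ hd hA
  have hom := om_pos (E := E)
  have hcs := cont_sqrt hgm hg hφ
  have hcd := (continuous_dens hgm.cont).continuousOn (s := closedBall (0 : E) 1)
  have hb1 := lint_ball (f := fun x => dens (g x) * om E) (hcd.mul continuousOn_const)
    fun x hx => mul_nonneg (dens_pos hgm hx).le hom.le
  have hb2 := lint_ball (f := fun x => om E * (√(ntr (g x) (pull φ g' x)) * dens (g x)))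
    (continuousOn_const.mul (hcs.mul hcd)) fun x hx => mul_nonneg hom.le
      (mul_nonneg (Real.sqrt_nonneg _) (dens_pos hgm hx).le)
  have h2 : ∀ᵐ x ∂(volume.restrict (ball (0 : E) 1)),
      ENNReal.ofReal (dens (g x) * mn (inFrame (pull φ g' x) (A x))) ≤
        ENNReal.ofReal (om E * (√(ntr (g x) (pull φ g' x)) * dens (g x))) := by
    refine (ae_restrict_iff' measurableSet_ball).2 (Eventually.of_forall fun x hx => ?_)
    refine ENNReal.ofReal_le_ofReal ?_
    have := mul_le_mul_of_nonneg_left (mn_le_ntr hn hg hφ hA (ball_subset_closedBall hx))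
      (dens_pos hgm (ball_subset_closedBall hx)).le
    linarith
  have h3 : ∫⁻ x in ball (0 : E) 1,
      ENNReal.ofReal (om E * (√(ntr (g x) (pull φ g' x)) * dens (g x))) ≤
      ∫⁻ x in ball (0 : E) 1,
        ENNReal.ofReal (dens (g x) * mn (inFrame (pull φ g' x) (A x))) := by
    refine le_trans ?_ h1
    rw [hb1, hb2]
    refine ENNReal.ofReal_le_ofReal ?_
    rw [integral_mul_const, integral_const_mul]
    have h4 := mul_le_mul_of_nonneg_left hle hom.le
    rw [vol] at h4
    linarith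
  have hfin : ∫⁻ x in ball (0 : E) 1,
      ENNReal.ofReal (dens (g x) * mn (inFrame (pull φ g' x) (A x))) ≠ ⊤ := by
    refine ne_top_of_le_ne_top ?_ (lintegral_mono_ae h2)
    rw [hb2]
    exact ENNReal.ofReal_ne_top
  have hmeas : AEMeasurable (fun x =>
      ENNReal.ofReal (om E * (√(ntr (g x) (pull φ g' x)) * dens (g x))))
      (volume.restrict (ball (0 : E) 1)) := by
    refine ENNReal.measurable_ofReal.comp_aemeasurable ?_
    exact ((continuousOn_const.mul (hcs.mul hcd)).mono ball_subset_closedBall).aemeasurable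
      measurableSet_ball
  have h4 := ae_eq_of_ae_le_of_lintegral_le h2 hfin hmeas h3
  filter_upwards [h4, ae_restrict_mem measurableSet_ball] with x hx hxb
  have hdp := dens_pos hgm (ball_subset_closedBall hxb)
  have h5 := (ENNReal.ofReal_eq_ofReal_iff (mul_nonneg hdp.le (mn_nonneg _)) (mul_nonneg hom.le
    (mul_nonneg (Real.sqrt_nonneg _) hdp.le))).1 hx
  have h6 : dens (g x) * mn (inFrame (pull φ g' x) (A x)) =
      dens (g x) * (om E * √(ntr (g x) (pull φ g' x))) := by rw [h5]; ring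
  exact mul_left_cancel₀ hdp.ne' h6

/-- in the equality case the map is conformal -/
theorem conf_ae (hn : 0 < Module.finrank ℝ E) (h : Simple g e L) (hg : IsMetric g') (hφ : IsBdryMap φ)
    (hd : ∀ p ∈ sphere (0 : E) 1, ∀ q ∈ sphere (0 : E) 1, gdist g p q ≤ gdist g' p q)
    (hle : ∫ x in closedBall (0 : E) 1, √(ntr (g x) (pull φ g' x)) * dens (g x) ≤ vol g) :
    ∀ᵐ x ∂(volume.restrict (ball (0 : E) 1)),
      pull φ g' x = ntr (g x) (pull φ g' x) • g x := by
  have hgm := Simple_isMetric h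
  obtain ⟨A, hA⟩ := exists_isFrame hgm
  filter_upwards [mn_ae hn h hg hφ hd hA hle, ae_restrict_mem measurableSet_ball] with x hx hxb
  have hxM := ball_subset_closedBall hxb
  rw [ntr_frame hA hxM] at hx ⊢
  set c := (∑ i, inFrame (pull φ g' x) (A x) (stdOrthonormalBasis ℝ E i)
      (stdOrthonormalBasis ℝ E i)) / Module.finrank ℝ E with hc
  have h1 := mn_eq hn _ (inFrame (pull φ g' x) (A x)) (fun v => pull_nonneg hg hφ hxM _) hx
  have h2 : ∀ v, pull φ g' x v v = c * g x v v := by
    intro v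
    have h3 := h1 ((A x).symm v)
    rw [inFrame_apply, LinearEquiv.apply_symm_apply, ← real_inner_self_eq_norm_sq,
      ← (hA x hxM).1, LinearEquiv.apply_symm_apply] at h3
    exact h3
  have hs1 : ∀ v w, pull φ g' x v w = pull φ g' x w v := fun v w => by
    rw [pull_apply, pull_apply, hg.symm _ (hφ.maps hxM)]
  ext1 v
  ext1 w
  have h3 := h2 (v + w)
  have h4 := h2 v
  have h5 := h2 w
  simp only [map_add, add_apply] at h3
  rw [hs1 w v, hgm.symm x hxM w v] at h3
  simp only [smul_apply, smul_eq_mul]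
  linarith

/-- the `r`-energy of `φ : (M, g) → (M, g')` -/
def energy (r : ℝ) (g g' : E → E →L[ℝ]
    E →L[ℝ] ℝ)
    (φ : E → E) : ℝ :=
  ∫ x in closedBall (0 : E) 1,
    (ntr (g x) (pull φ g' x)) ^ (r / 2) * dens (g x)

lemma rpow_half {c : ℝ} (hc : 0 ≤ c) (r : ℝ) : c ^ (r / 2) = √c ^ r := by
  rw [Real.sqrt_eq_rpow, ← Real.rpow_mul hc]
  congr 1
  ring

lemma bern {s r : ℝ} (hs : 0 ≤ s) (hr : 1 ≤ r) : 1 + r * (s - 1) ≤ s ^ r := by
  have := one_add_mul_self_le_rpow_one_add (s := s - 1) (by linarith) hr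
  rwa [add_sub_cancel] at this

lemma bern_lt {s r : ℝ} (hs : 0 ≤ s) (hs1 : s ≠ 1) (hr : 1 < r) : 1 + r * (s - 1) < s ^ r := by
  have := one_add_mul_self_lt_rpow_one_add (s := s - 1) (by linarith)
    (sub_ne_zero.2 hs1) hr
  rwa [add_sub_cancel] at this

lemma cont_energy (hg : IsMetric g) (hg' : IsMetric g') (hφ : IsBdryMap φ) {r : ℝ} (hr : 0 ≤ r) :
    ContinuousOn (fun x => (ntr (g x) (pull φ g' x)) ^ (r / 2) * dens (g x))
      (closedBall (0 : E) 1) := by
  refine ContinuousOn.mul ?_ (continuous_dens hg.cont).continuousOn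
  exact (continuousOn_ntr hg (continuous_pull hg'.cont hφ.smooth)).rpow_const
    fun x _ => Or.inr (by positivity)

/-- the defect in the inequality -/
lemma defect (hn : 0 < Module.finrank ℝ E) (h : Simple g e L) (hg : IsMetric g') (hφ : IsBdryMap φ)
    (hd : ∀ p ∈ sphere (0 : E) 1, ∀ q ∈ sphere (0 : E) 1, gdist g p q ≤ gdist g' p q)
    {r : ℝ} (hr : 1 ≤ r) :
    ∫ x in closedBall (0 : E) 1, ((ntr (g x) (pull φ g' x)) ^ (r / 2) * dens (g x) -
        (1 + r * (√(ntr (g x) (pull φ g' x)) - 1)) * dens (g x)) =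
      energy r g g' φ - vol g - r * ((∫ x in closedBall (0 : E) 1,
        √(ntr (g x) (pull φ g' x)) * dens (g x)) - vol g) := by
  have hgm := Simple_isMetric h
  have hcs := cont_sqrt hgm hg hφ
  have hcd := (continuous_dens hgm.cont).continuousOn (s := closedBall (0 : E) 1)
  have h1 : ∀ x, (1 + r * (√(ntr (g x) (pull φ g' x)) - 1)) * dens (g x) =
      (1 - r) * dens (g x) + r * (√(ntr (g x) (pull φ g' x)) * dens (g x)) := fun x => by ring
  simp only [h1]
  have i1 : IntegrableOn (fun x => (ntr (g x) (pull φ g' x)) ^ (r / 2) * dens (g x))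
      (closedBall (0 : E) 1) := intOn (cont_energy hgm hg hφ (by linarith))
  have i2 : IntegrableOn (fun x => (1 - r) * dens (g x)) (closedBall (0 : E) 1) :=
    intOn (continuousOn_const.mul hcd)
  have i3 : IntegrableOn (fun x => r * (√(ntr (g x) (pull φ g' x)) * dens (g x)))
      (closedBall (0 : E) 1) := intOn (continuousOn_const.mul (hcs.mul hcd))
  have i4 : IntegrableOn (fun x => (1 - r) * dens (g x) +
      r * (√(ntr (g x) (pull φ g' x)) * dens (g x))) (closedBall (0 : E) 1) := i2.add i3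
  rw [integral_sub i1 i4, integral_add i2 i3, integral_const_mul, integral_const_mul, energy, vol]
  ring

lemma defect_nonneg (h : Simple g e L) {r : ℝ} (hr : 1 ≤ r) {x : E}
    (hx : x ∈ closedBall (0 : E) 1) (hnn : 0 ≤ ntr (g x) (pull φ g' x)) :
    0 ≤ (ntr (g x) (pull φ g' x)) ^ (r / 2) * dens (g x) -
        (1 + r * (√(ntr (g x) (pull φ g' x)) - 1)) * dens (g x) := by
  rw [rpow_half hnn, ← sub_mul]
  exact mul_nonneg (sub_nonneg.2 (bern (Real.sqrt_nonneg _) hr))
    (dens_pos (Simple_isMetric h) hx).le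

/-- the energy inequality -/
theorem energy_ge (hn : 0 < Module.finrank ℝ E) (h : Simple g e L) (hg : IsMetric g') (hφ : IsBdryMap φ)
    (hd : ∀ p ∈ sphere (0 : E) 1, ∀ q ∈ sphere (0 : E) 1, gdist g p q ≤ gdist g' p q)
    {r : ℝ} (hr : 1 ≤ r) : vol g ≤ energy r g g' φ := by
  have h1 := defect hn h hg hφ hd hr
  have h2 := setIntegral_nonneg (μ := volume) measurableSet_closedBall fun x hx =>
    defect_nonneg (φ := φ) (g' := g') h hr hx (ntr_nonneg (Simple_isMetric h) hg hφ hx)
  have h3 := main_one hn h hg hφ hd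
  rw [h1] at h2
  nlinarith

/-- equality -/
theorem energy_eq (hn : 0 < Module.finrank ℝ E) (h : Simple g e L) (hg : IsMetric g') (hφ : IsBdryMap φ)
    (hd : ∀ p ∈ sphere (0 : E) 1, ∀ q ∈ sphere (0 : E) 1, gdist g p q ≤ gdist g' p q)
    {r : ℝ} (hr : 1 < r) (hle : energy r g g' φ ≤ vol g) :
    ∀ x ∈ closedBall (0 : E) 1, pull φ g' x = g x := by
  have hgm := Simple_isMetric h
  have h1 := defect hn h hg hφ hd hr.le
  have h3 := main_one hn h hg hφ hd
  have hcs := cont_sqrt hgm hg hφ
  have hcd := (continuous_dens hgm.cont).continuousOn (s := closedBall (0 : E) 1)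
  have h2 := fun x (hx : x ∈ closedBall (0 : E) 1) =>
    defect_nonneg (φ := φ) (g' := g') h hr.le hx (ntr_nonneg hgm hg hφ hx)
  have h4 := zero_of_int (f := fun x => (ntr (g x) (pull φ g' x)) ^ (r / 2) * dens (g x) -
    (1 + r * (√(ntr (g x) (pull φ g' x)) - 1)) * dens (g x)) ((cont_energy hgm hg hφ (by linarith : (0 : ℝ) ≤ r)).sub
    ((continuousOn_const.add (continuousOn_const.mul (hcs.sub continuousOn_const))).mul hcd)) h2
    (by rw [h1]; nlinarith)
  have h5 : ∀ x ∈ closedBall (0 : E) 1, √(ntr (g x) (pull φ g' x)) = 1 := by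
    intro x hx
    by_contra hne
    have h6 := h4 x hx
    rw [rpow_half (ntr_nonneg hgm hg hφ hx), ← sub_mul] at h6
    have h7 := bern_lt (Real.sqrt_nonneg _) hne hr
    exact (mul_pos (sub_pos.2 h7) (dens_pos hgm hx)).ne' h6
  have h6 : ∫ x in closedBall (0 : E) 1, √(ntr (g x) (pull φ g' x)) * dens (g x) ≤ vol g := by
    refine le_of_eq (setIntegral_congr_fun measurableSet_closedBall fun x hx => ?_)
    simp only [h5 x hx, one_mul]
  refine all_of_ae (continuous_pull hg.cont hφ.smooth).continuousOn hgm.cont.continuousOn ?_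
  filter_upwards [conf_ae hn h hg hφ hd h6, ae_restrict_mem measurableSet_ball] with x hx hxb
  have hxM := ball_subset_closedBall hxb
  have h7 : ntr (g x) (pull φ g' x) = 1 := by
    have h8 := h5 x hxM
    rw [← Real.sq_sqrt (ntr_nonneg hgm hg hφ hxM), h8, one_pow]
  rw [hx, h7, one_smul]

lemma ntr_self (hn : 0 < Module.finrank ℝ E) (hg : IsMetric g) {x : E} (hx : x ∈ closedBall (0 : E) 1) :
    ntr (g x) (g x) = 1 := by
  obtain ⟨A, h1, h2, h3⟩ := frame hg hx
  rw [ntr, Matrix.nonsing_inv_mul _ h3.ne'.isUnit, Matrix.trace_one, Fintype.card_fin]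
  have : (Module.finrank ℝ E : ℝ) ≠ 0 := by exact_mod_cast hn.ne'
  field_simp

lemma energy_of_isometry (hn : 0 < Module.finrank ℝ E) (hg : IsMetric g) (r : ℝ)
    (hiso : ∀ x ∈ closedBall (0 : E) 1, pull φ g' x = g x) : energy r g g' φ = vol g := by
  refine setIntegral_congr_fun measurableSet_closedBall fun x hx => ?_
  simp only [hiso x hx, ntr_self hn hg hx, Real.one_rpow, one_mul]

end Pool.Agent.W9h56.BE
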