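import Pool.Agent.W9h56.BE.Stretch
import Pool.Agent.W9h56.BE.Rigid

/-!
# The total stretch: inequality, equality, the cone
-/

open Set Metric Filter Topology MeasureTheory
open scoped ContDiff RealInnerProductSpace ENNReal

noncomputable section

set_option maxSynthPendingDepth 3

namespace Pool.Agent.W9h56.BE

open Pool.Agent.W5h72.BR

variable {E : Type*} [NormedAddCommGroup E] [InnerProductSpace ℝ E] [FiniteDimensional ℝ E]
  [MeasurableSpace E] [BorelSpace E]

variable {g g' : E → E →L[ℝ]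
    E →L[ℝ] ℝ}
  {e L e' L' : E → E → E}
  {φ : E → E}


/-- the cone condition, integrated -/
theorem total_le_of_cone (hn : 0 < Module.finrank ℝ E) (h : Simple g e L) (hg : IsMetric g') (hφ : IsBdryMap φ)
    {c : ℝ} (hcone : InCone c g g' φ) :
    totalStretch g g' φ ≤ vol g + c * (vol g' - vol g) := by
  obtain ⟨hbij, hcone⟩ := hcone
  have hgm := Simple_isMetric h
  have hcd := (continuous_dens hgm.cont).continuousOn (s := closedBall (0 : E) 1)
  have hcj := cont_jac hgm hg hφ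
  have e1 : ∀ x, (1 + c * (jac g g' φ x - 1)) * dens (g x) =
      (1 - c) * dens (g x) + c * (jac g g' φ x * dens (g x)) := fun x => by ring
  have i1 : IntegrableOn (fun x => (1 - c) * dens (g x)) (closedBall (0 : E) 1) :=
    intOn (continuousOn_const.mul hcd)
  have i2 : IntegrableOn (fun x => c * (jac g g' φ x * dens (g x)))
      (closedBall (0 : E) 1) := intOn (continuousOn_const.mul (hcj.mul hcd))
  have i4 : IntegrableOn (fun x => (1 + c * (jac g g' φ x - 1)) * dens (g x))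
      (closedBall (0 : E) 1) := by
    simp only [e1]; exact i1.add i2
  have e2 : ∫ x in closedBall (0 : E) 1, (1 + c * (jac g g' φ x - 1)) * dens (g x) =
      vol g + c * (vol g' - vol g) := by
    simp only [e1]
    rw [integral_add i1 i2, integral_const_mul, integral_const_mul, int_jac hgm hg hφ hbij]
    rw [← vol]
    ring
  rw [← e2]
  refine setIntegral_mono_on (int_stretch hn h hg hφ) i4 measurableSet_closedBall fun x hx => ?_
  exact mul_le_mul_of_nonneg_right (hcone x hx) (dens_nonneg _)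

lemma finrank_lt (hn : 2 ≤ Module.finrank ℝ E) : 1 < Module.finrank ℝ E := by
  omega

lemma jac_of_iso (hg : IsMetric g) (hiso : IsIsometric g g' φ) {x : E}
    (hx : x ∈ closedBall (0 : E) 1) : jac g g' φ x = 1 := by
  rw [jac, ← dens_pull, hiso x hx, div_self (dens_pos hg hx).ne']

lemma total_of_iso (hn : 0 < Module.finrank ℝ E) (hg : IsMetric g) (hiso : IsIsometric g g' φ) :
    totalStretch g g' φ = vol g := by
  refine setIntegral_congr_fun measurableSet_closedBall fun x hx => ?_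
  simp only [stretch_self hn hg hx (hiso x hx), one_mul]

lemma iso_of_total (hn : 2 ≤ Module.finrank ℝ E) (h : Simple g e L) (hg : IsMetric g') (hφ : IsBdryMap φ)
    (hd : ∀ p ∈ sphere (0 : E) 1, ∀ q ∈ sphere (0 : E) 1, gdist g p q ≤ gdist g' p q)
    (hle : totalStretch g g' φ ≤ vol g) : IsIsometric g g' φ := by
  refine pull_eq h (finrank_lt hn) hg hφ hd fun p hp q hq hpq => ?_
  obtain ⟨γ, u, hγ, h0, -, h1⟩ := h.exists_geod (mem_of_sphere hp) (mem_of_sphere hq)
  rw [KP_eq h hγ h0 h1]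
  exact stretch_len (by omega) h hg hφ hd hle hp hq hpq hγ h0 h1

lemma vol_of_iso (hg : IsMetric g) (hg' : IsMetric g') (hφ : IsBdryMap φ)
    (hbij : BijOn φ (closedBall (0 : E) 1) (closedBall (0 : E) 1))
    (hiso : IsIsometric g g' φ) : vol g' = vol g := by
  rw [← int_jac hg hg' hφ hbij]
  refine setIntegral_congr_fun measurableSet_closedBall fun x hx => ?_
  simp only [jac_of_iso hg hiso hx, one_mul]

lemma incone_of_iso (hn : 0 < Module.finrank ℝ E) (hg : IsMetric g)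
    (hbij : BijOn φ (closedBall (0 : E) 1) (closedBall (0 : E) 1))
    (hiso : IsIsometric g g' φ) (c : ℝ) : InCone c g g' φ := by
  refine ⟨hbij, fun x hx => ?_⟩
  rw [stretch_self hn hg hx (hiso x hx), jac_of_iso hg hiso hx]
  simp

/-- part A -/
theorem partA (hn : 2 ≤ Module.finrank ℝ E) (h : Simple g e L) (hg : IsMetric g') (hφ : IsBdryMap φ)
    (hd : ∀ p ∈ sphere (0 : E) 1, ∀ q ∈ sphere (0 : E) 1, gdist g p q ≤ gdist g' p q) :
    vol g ≤ totalStretch g g' φ ∧
      (totalStretch g g' φ = vol g ↔ IsIsometric g g' φ) ∧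
      (∀ c > 0, InCone c g g' φ → vol g ≤ vol g' ∧ (vol g' = vol g ↔ IsIsometric g g' φ)) := by
  have hn0 : 0 < Module.finrank ℝ E := by omega
  have hgm := Simple_isMetric h
  refine ⟨stretch_ge hn0 h hg hφ hd, ⟨fun h1 => iso_of_total hn h hg hφ hd h1.le,
    fun h1 => total_of_iso hn0 hgm h1⟩, ?_⟩
  intro c hc hcone
  have h1 := total_le_of_cone hn0 h hg hφ hcone
  have h2 := stretch_ge hn0 h hg hφ hd
  have h2' : vol g ≤ totalStretch g g' φ := h2
  have h4 : 0 ≤ c * (vol g' - vol g) := by linarith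
  refine ⟨?_, fun h3 => ?_, fun h3 => vol_of_iso hgm hg hφ hcone.1 h3⟩
  · have := nonneg_of_mul_nonneg_right h4 hc
    linarith
  · rw [h3, sub_self, mul_zero, add_zero] at h1
    exact iso_of_total hn h hg hφ hd h1

lemma rho_of_gdist (h : Simple g e L) (h' : Simple g' e' L')
    (hd : ∀ p ∈ sphere (0 : E) 1, ∀ q ∈ sphere (0 : E) 1, gdist g p q = gdist g' p q) :
    ∀ p ∈ sphere (0 : E) 1, ∀ q ∈ sphere (0 : E) 1, rho g L p q = rho g' L' p q := by
  intro p hp q hq
  have := hd p hp q hq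
  rwa [h.gdist_eq (mem_of_sphere hp) (mem_of_sphere hq),
    h'.gdist_eq (mem_of_sphere hp) (mem_of_sphere hq)] at this

/-- part B -/
theorem partB (hn : 2 ≤ Module.finrank ℝ E) (h : Simple g e L) (h' : Simple g' e' L')
    (hd : ∀ p ∈ sphere (0 : E) 1, ∀ q ∈ sphere (0 : E) 1, gdist g p q = gdist g' p q) :
    vol g' = vol g ∧
      (BoundaryIsometric g g' ↔ ∃ φ, IsBdryMap φ ∧ totalStretch g g' φ ≤ vol g) ∧
      (BoundaryIsometric g g' ↔ ∃ φ c, IsBdryMap φ ∧ InCone c g g' φ) := by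
  have hn0 : 0 < Module.finrank ℝ E := by omega
  have hgm := Simple_isMetric h
  have hgm' := Simple_isMetric h'
  have hrho := rho_of_gdist h h' hd
  have hvol : vol g = vol g' := vol_eq hn0 h h' hrho
  have hd' : ∀ p ∈ sphere (0 : E) 1, ∀ q ∈ sphere (0 : E) 1, gdist g p q ≤ gdist g' p q :=
    fun p hp q hq => (hd p hp q hq).le
  have back : ∀ φ, IsBdryMap φ → IsIsometric g g' φ → BoundaryIsometric g g' := by
    intro φ hφ hiso
    obtain ⟨ψ, χ, k1, k2, k3, k4, k5, k6, -, -⟩ := iso_of_len h h' (finrank_lt hn) hφ hrho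
      fun p hp q hq hpq γ u hγ h0 h1 => (len_of_iso h hiso hγ h0 h1).le
    exact ⟨ψ, χ, k1, k2, k3, k4, k5, k6⟩
  have forth : BoundaryIsometric g g' → ∃ φ, IsBdryMap φ ∧
      BijOn φ (closedBall (0 : E) 1) (closedBall (0 : E) 1) ∧ IsIsometric g g' φ := by
    rintro ⟨ψ, χ, k1, k2, k3, k4, k5, k6⟩
    refine ⟨ψ, ⟨k1.of_le (by norm_cast), fun x hx => (k3 x hx).1, k5⟩, ?_, ?_⟩
    · refine ⟨fun x hx => (k3 x hx).1, fun x hx y hy hxy => ?_, fun y hy => ?_⟩
      · rw [← (k3 x hx).2, ← (k3 y hy).2, hxy]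
      · exact ⟨χ y, (k4 y hy).1, (k4 y hy).2⟩
    · intro x hx
      ext v w
      exact k6 x hx v w
  refine ⟨hvol.symm, ⟨fun hb => ?_, ?_⟩, fun hb => ?_, ?_⟩
  · obtain ⟨φ, h1, h2, h3⟩ := forth hb
    exact ⟨φ, h1, (total_of_iso hn0 hgm h3).le⟩
  · rintro ⟨φ, h1, h2⟩
    exact back φ h1 (iso_of_total hn h hgm' h1 hd' h2)
  · obtain ⟨φ, h1, h2, h3⟩ := forth hb
    exact ⟨φ, 0, h1, incone_of_iso hn0 hgm h2 h3 0⟩
  · rintro ⟨φ, c, h1, h2⟩
    have h3 := total_le_of_cone hn0 h hgm' h1 h2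
    rw [hvol, sub_self, mul_zero, add_zero, ← hvol] at h3
    exact back φ h1 (iso_of_total hn h hgm' h1 hd' h3)

/-- conformal maps are in the cone with the constant `1 / Module.finrank ℝ E` -/
lemma inCone_of_conformal (hn : 2 ≤ Module.finrank ℝ E) (hg : IsMetric g) (hg' : IsMetric g') (hφ : IsBdryMap φ)
    (hbij : BijOn φ (closedBall (0 : E) 1) (closedBall (0 : E) 1))
    (hconf : ∀ x ∈ closedBall (0 : E) 1, ∃ ρ : ℝ, 0 ≤ ρ ∧ pull φ g' x = ρ • g x) :
    InCone (1 / Module.finrank ℝ E) g g' φ := by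
  have hn0 : 0 < Module.finrank ℝ E := by omega
  refine ⟨hbij, fun x hx => ?_⟩
  obtain ⟨ρ, hρ, hx2⟩ := hconf x hx
  have h1 : ntr (g x) (pull φ g' x) = ρ := by
    have h2 : ntr (g x) (ρ • g x) = ρ * ntr (g x) (g x) := by
      have h3 : gram (ρ • g x) = ρ • gram (g x) := by
        ext i j
        simp [gram]
      rw [ntr, h3, Matrix.mul_smul, Matrix.trace_smul, smul_eq_mul, ntr]
      ring
    rw [hx2, h2, ntr_self hn0 hg hx, mul_one]
  have h4 : jac g g' φ x = √ρ ^ Module.finrank ℝ E := by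
    rw [jac, ← dens_pull, hx2, dens_smul hρ, mul_div_assoc, div_self (dens_pos hg hx).ne', mul_one]
  have h5 := stretch_le hn0 hg hg' hφ hx
  rw [h1] at h5
  refine h5.trans ?_
  rw [h4]
  have hn' : (0 : ℝ) < Module.finrank ℝ E := by exact_mod_cast hn0
  have h6 := bern (s := √ρ) (r := Module.finrank ℝ E) (Real.sqrt_nonneg _) (by exact_mod_cast (by omega : 1 ≤ Module.finrank ℝ E))
  rw [Real.rpow_natCast] at h6
  rw [div_mul_eq_mul_div, one_mul]
  have h7 : √ρ - 1 ≤ (√ρ ^ Module.finrank ℝ E - 1) / Module.finrank ℝ E := by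
    rw [le_div_iff₀ hn']
    linarith
  linarith

lemma gd_eq (g : E → E →L[ℝ] E →L[ℝ] ℝ) (x y : E) : gd g x y = gdist g x y := by
  unfold gd gdist
  congr 1
  ext l
  constructor
  · rintro ⟨c, c', h1, h2, h3, h4, h5, h6⟩
    exact ⟨c, c', ⟨h1, h2, h3, h4, h5⟩, h6⟩
  · rintro ⟨c, c', ⟨h1, h2, h3, h4, h5⟩, h6⟩
    exact ⟨c, c', h1, h2, h3, h4, h5, h6⟩

lemma relIsometric_iff : RelIsometric g g' ↔ BoundaryIsometric g g' := by
  constructor
  · rintro ⟨ψ, χ, h1, h2, h3, h4, h5, h6⟩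
    refine ⟨ψ, χ, h1, h2, h3, h4, h5, fun x hx v w => ?_⟩
    rw [← h6 x hx]
    rfl
  · rintro ⟨ψ, χ, h1, h2, h3, h4, h5, h6⟩
    refine ⟨ψ, χ, h1, h2, h3, h4, h5, fun x hx => ?_⟩
    ext v w
    exact h6 x hx v w

/-- the first part of the result -/
theorem mainA (hn : 2 ≤ Module.finrank ℝ E) (hg : IsSimpleM g) (hg' : IsMetric g')
    (hφ : IsBdryMap φ) (hd : BdryLE g g') :
    vol g ≤ totalStretch g g' φ ∧
      (totalStretch g g' φ = vol g ↔ IsIsometric g g' φ) ∧
      (∀ c > 0, InCone c g g' φ → vol g ≤ vol g' ∧ (vol g' = vol g ↔ IsIsometric g g' φ)) := by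
  obtain ⟨e, L, h⟩ := hg
  refine partA hn h hg' hφ fun p hp q hq => ?_
  have := hd p hp q hq
  rwa [gd_eq, gd_eq] at this

/-- the second part of the result -/
theorem mainB (hn : 2 ≤ Module.finrank ℝ E) (hg : IsSimpleM g) (hg' : IsSimpleM g')
    (hd : BdryLE g g') (hd' : BdryLE g' g) :
    vol g' = vol g ∧
      (RelIsometric g g' ↔ ∃ φ, IsBdryMap φ ∧ totalStretch g g' φ ≤ vol g) ∧
      (RelIsometric g g' ↔ ∃ φ c, IsBdryMap φ ∧ InCone c g g' φ) := by
  obtain ⟨e, L, h⟩ := hg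
  obtain ⟨e', L', h'⟩ := hg'
  rw [relIsometric_iff]
  refine partB hn h h' fun p hp q hq => ?_
  have h1 := hd p hp q hq
  have h2 := hd' p hp q hq
  rw [gd_eq, gd_eq] at h1 h2
  exact le_antisymm h1 h2

end Pool.Agent.W9h56.BE
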