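import Mathlib

/-!
# Averages of quadratic forms over the unit ball
-/

open Set Metric Filter Topology MeasureTheory
open scoped ContDiff RealInnerProductSpace ENNReal

noncomputable section

namespace Pool.Agent.W9h56.BE

variable {E : Type*} [NormedAddCommGroup E] [InnerProductSpace ℝ E] [FiniteDimensional ℝ E]
  [MeasurableSpace E] [BorelSpace E]

/-- the unit vector -/
def un (y : E) : E := ‖y‖⁻¹ • y

omit [FiniteDimensional ℝ E] in
lemma measurable_un : Measurable (un : E → E) := by
  unfold un
  exact (measurable_norm.inv).smul measurable_id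

omit [InnerProductSpace ℝ E] [FiniteDimensional ℝ E] [MeasurableSpace E] [BorelSpace E] in
lemma norm_un_le [NormedSpace ℝ E] (y : E) : ‖(‖y‖⁻¹ • y : E)‖ ≤ 1 := by
  rw [norm_smul, norm_inv, norm_norm]
  by_cases h : ‖y‖ = 0
  · rw [h]; simp
  · rw [inv_mul_cancel₀ h]

/-- bounded measurable functions are integrable on the ball -/
lemma integrableOn_bdd {f : E → ℝ} (hf : Measurable f) (C : ℝ) (hC : ∀ y, |f y| ≤ C) :
    IntegrableOn f (ball (0 : E) 1) := by
  refine Measure.integrableOn_of_bounded (M := C) measure_ball_lt_top.ne hf.aestronglyMeasurable ?_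
  exact Eventually.of_forall fun y => by rw [Real.norm_eq_abs]; exact hC y

/-- the moments -/
def mom (v w : E) : ℝ := ∫ y in ball (0 : E) 1, inner ℝ v (un y) * inner ℝ w (un y)

lemma mom_int (v w : E) :
    IntegrableOn (fun y : E => inner ℝ v (un y) * inner ℝ w (un y)) (ball (0 : E) 1) := by
  refine integrableOn_bdd ?_ (‖v‖ * ‖w‖) fun y => ?_
  · exact (measurable_const.inner measurable_un).mul (measurable_const.inner measurable_un)
  · rw [abs_mul]
    have h1 : ∀ v : E, |inner ℝ v (un y)| ≤ ‖v‖ := fun v =>
      (abs_real_inner_le_norm _ _).trans (by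
        have := norm_un_le (E := E) y
        calc ‖v‖ * ‖un y‖ ≤ ‖v‖ * 1 := mul_le_mul_of_nonneg_left this (norm_nonneg _)
          _ = ‖v‖ := mul_one _)
    exact mul_le_mul (h1 v) (h1 w) (abs_nonneg _) (norm_nonneg _)

lemma mom_isometry (U : E ≃ₗᵢ[ℝ] E) (v : E) : mom (U v) (U v) = mom v v := by
  unfold mom
  have h1 : MeasurePreserving U (volume : Measure E) volume := U.measurePreserving
  have h2 : U ⁻¹' ball (0 : E) 1 = ball (0 : E) 1 := by
    ext y; simp
  rw [← h1.setIntegral_preimage_emb U.toHomeomorph.measurableEmbedding, h2]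
  refine integral_congr_ae (Eventually.of_forall fun y => ?_)
  have h3 : un (U y) = U (un y) := by simp [un]
  simp only [h3, LinearIsometryEquiv.inner_map_map]

lemma mom_eq {v w : E} (h : ‖v‖ = ‖w‖) : mom v v = mom w w := by
  have h1 := Submodule.reflection_sub h
  rw [← h1]
  exact (mom_isometry _ v).symm

lemma mom_orth {v w : E} (hv : ‖v‖ = 1) (hw : ‖w‖ = 1) (h : inner ℝ v w = 0) : mom v w = 0 := by
  have h1 : ‖v + w‖ = ‖v - w‖ := by
    rw [← sq_eq_sq₀ (norm_nonneg _) (norm_nonneg _), norm_add_sq_real, norm_sub_sq_real, h]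
    ring
  have h2 := mom_eq h1
  have h3 : ∀ s : ℝ, mom (v + s • w) (v + s • w) = mom v v + 2 * s * mom v w + s ^ 2 * mom w w := by
    intro s
    have e1 := integral_add (mom_int v v) ((mom_int v w).const_mul (2 * s))
    have e2 := integral_add ((mom_int v v).add ((mom_int v w).const_mul (2 * s)))
      ((mom_int w w).const_mul (s ^ 2))
    rw [integral_const_mul] at e1 e2
    simp only [Pi.add_apply] at e1 e2
    rw [e1] at e2
    unfold mom
    rw [← e2]
    refine integral_congr_ae (Eventually.of_forall fun y => ?_)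
    simp only [inner_add_left, inner_smul_left, RCLike.conj_to_real]
    ring
  have h4 := h3 1
  have h5 := h3 (-1)
  rw [one_smul] at h4
  rw [neg_one_smul, ← sub_eq_add_neg] at h5
  rw [h4, h5] at h2
  linarith

/-- the average of a quadratic form over the ball -/
lemma avg {n : ℕ} (hn : 0 < n) (b : OrthonormalBasis (Fin n) ℝ E) (B : E →L[ℝ] E →L[ℝ] ℝ) :
    ∫ y in ball (0 : E) 1, B (un y) (un y) =
      volume.real (ball (0 : E) 1) * ((∑ i, B (b i) (b i)) / n) := by
  have hb1 : ∀ i, ‖b i‖ = 1 := fun i => b.orthonormal.1 i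
  have hsum : ∑ i, mom (b i) (b i) = volume.real (ball (0 : E) 1) := by
    unfold mom
    rw [← integral_finsetSum _ fun i _ => mom_int (b i) (b i)]
    have h1 : ∀ᵐ y ∂(volume.restrict (ball (0 : E) 1)),
        ∑ i, inner ℝ (b i) (un y) * inner ℝ (b i) (un y) = 1 := by
      have h2 : ∀ᵐ y : E ∂(volume.restrict (ball (0 : E) 1)), y ≠ 0 := by
        have : Nontrivial E := by
          have i0 : Fin n := ⟨0, hn⟩
          exact ⟨b i0, 0, fun h => by have := hb1 i0; rw [h, norm_zero] at this; simp at this⟩
        exact ae_restrict_of_ae (by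
          have := measure_singleton (μ := (volume : Measure E)) (0 : E)
          rw [ae_iff]
          simpa using this)
      filter_upwards [h2] with y hy
      have h3 : ‖un y‖ = 1 := by
        rw [un, norm_smul, norm_inv, norm_norm, inv_mul_cancel₀ (norm_ne_zero_iff.2 hy)]
      have h4 := b.sum_sq_norm_inner_right (un y)
      rw [h3] at h4
      rw [show (1 : ℝ) = 1 ^ 2 by norm_num, ← h4]
      refine Finset.sum_congr rfl fun i _ => ?_
      rw [Real.norm_eq_abs, sq_abs]
      ring
    rw [integral_congr_ae h1]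
    simp
  have hall : ∀ i, mom (b i) (b i) = volume.real (ball (0 : E) 1) / n := by
    intro i
    have h1 : ∀ j, mom (b j) (b j) = mom (b i) (b i) := fun j => mom_eq (by rw [hb1, hb1])
    rw [Finset.sum_congr rfl fun j _ => h1 j, Finset.sum_const, Finset.card_univ, Fintype.card_fin,
      nsmul_eq_mul] at hsum
    have hn' : (n : ℝ) ≠ 0 := by exact_mod_cast hn.ne'
    field_simp
    linarith
  have hexp : ∀ y : E, B (un y) (un y) =
      ∑ i, ∑ j, B (b i) (b j) * (inner ℝ (b i) (un y) * inner ℝ (b j) (un y)) := by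
    intro y
    have h1 := b.sum_repr' (un y)
    conv_lhs => rw [← h1]
    simp only [map_sum, map_smul, FunLike.coe_sum, Finset.sum_apply, smul_apply, smul_eq_mul]
    simp only [Finset.mul_sum]
    rw [Finset.sum_comm]
    refine Finset.sum_congr rfl fun i _ => Finset.sum_congr rfl fun j _ => ?_
    ring
  simp only [hexp]
  rw [integral_finsetSum _ fun i _ => integrable_finsetSum _ fun j _ =>
    (mom_int (b i) (b j)).const_mul _]
  have h5 : ∀ i, ∫ y in ball (0 : E) 1,
      ∑ j, B (b i) (b j) * (inner ℝ (b i) (un y) * inner ℝ (b j) (un y)) =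
        B (b i) (b i) * (volume.real (ball (0 : E) 1) / n) := by
    intro i
    rw [integral_finsetSum _ fun j _ => (mom_int (b i) (b j)).const_mul _]
    rw [Finset.sum_eq_single i]
    · rw [integral_const_mul]
      have := hall i
      unfold mom at this
      rw [this]
    · intro j _ hji
      rw [integral_const_mul]
      have := mom_orth (hb1 i) (hb1 j) (b.orthonormal.2 hji.symm)
      unfold mom at this
      rw [this, mul_zero]
    · intro h; exact absurd (Finset.mem_univ i) h
  rw [Finset.sum_congr rfl fun i _ => h5 i, ← Finset.sum_mul]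
  ring

end Pool.Agent.W9h56.BE
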