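import Pool.Agent.W9h56.BE.Geo
import Pool.Agent.W9h56.BE.Mean

/-!
# Change of variables for a fixed point `x`
-/

open Set Metric Filter Topology MeasureTheory
open scoped ContDiff RealInnerProductSpace ENNReal

noncomputable section

set_option maxSynthPendingDepth 3

namespace Pool.Agent.W9h56.BE

open Pool.Agent.W5h72.BR

variable {E : Type*} [NormedAddCommGroup E] [InnerProductSpace ℝ E] [FiniteDimensional ℝ E]

lemma det_adj (T : E →ₗ[ℝ] E) : LinearMap.det (LinearMap.adjoint T) = LinearMap.det T := by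
  have b := stdOrthonormalBasis ℝ E
  rw [← LinearMap.det_toMatrix b.toBasis, ← LinearMap.det_toMatrix b.toBasis,
    LinearMap.toMatrix_adjoint, Matrix.det_conjTranspose]
  simp

/-- the operator of a bilinear form -/
def gop (B : E →L[ℝ] E →L[ℝ] ℝ) : E →L[ℝ] E := J ∘L B

lemma inner_gop (B : E →L[ℝ] E →L[ℝ] ℝ) (v w : E) : inner ℝ (gop B v) w = B v w := by
  rw [gop, ContinuousLinearMap.comp_apply, inner_J]

/-- an isometry from the euclidean metric to a positive definite form -/
lemma exists_frame {B : E →L[ℝ] E →L[ℝ] ℝ} (hs : ∀ v w, B v w = B w v)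
    (hp : ∀ v, v ≠ 0 → 0 < B v v) :
    ∃ A : E ≃ₗ[ℝ] E, (∀ v w, B (A v) (A w) = inner ℝ v w) ∧
      |LinearMap.det ((gop B : E →L[ℝ] E).toLinearMap ∘ₗ A.toLinearMap)| =
        √ (LinearMap.det (gop B : E →L[ℝ] E).toLinearMap) ∧
      0 < LinearMap.det (gop B : E →L[ℝ] E).toLinearMap := by
  have hsym : ((gop B : E →L[ℝ] E).toLinearMap).IsSymmetric := by
    intro v w
    simp only [ContinuousLinearMap.coe_coe]
    rw [inner_gop, real_inner_comm, inner_gop, hs]
  set n := Module.finrank ℝ E with hn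
  set b := hsym.eigenvectorBasis (n := n) rfl with hb
  set l := hsym.eigenvalues (n := n) rfl with hl
  have hbb : ∀ i j, inner ℝ (b i) (b j) = if i = j then (1 : ℝ) else 0 := fun i j =>
    orthonormal_iff_ite.1 b.orthonormal i j
  have hGb : ∀ i, gop B (b i) = l i • b i := fun i => by
    exact hsym.apply_eigenvectorBasis (n := n) rfl i
  have hBb : ∀ i j, B (b i) (b j) = l i * if i = j then (1 : ℝ) else 0 := fun i j => by
    rw [← inner_gop, hGb, inner_smul_left, hbb]; simp
  have hl0 : ∀ i, 0 < l i := fun i => by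
    have h1 := hp (b i) (b.orthonormal.ne_zero i)
    rw [hBb] at h1; simpa using h1
  have hsq : ∀ i, √(l i) ≠ 0 := fun i => (Real.sqrt_pos.2 (hl0 i)).ne'
  have hu : ∀ i, IsUnit ((√(l i))⁻¹) := fun i => (inv_ne_zero (hsq i)).isUnit
  set A : E ≃ₗ[ℝ] E := b.toBasis.equiv (b.toBasis.isUnitSMul hu) (Equiv.refl _) with hA
  have hAb : ∀ i, A (b i) = (√(l i))⁻¹ • b i := fun i => by
    have h1 := b.toBasis.equiv_apply i (b.toBasis.isUnitSMul hu) (Equiv.refl _)
    rw [Module.Basis.isUnitSMul_apply, OrthonormalBasis.coe_toBasis] at h1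
    exact h1
  have hiso : ∀ v w, B (A v) (A w) = inner ℝ v w := by
    intro v w
    have hv := b.sum_repr' v
    have hw := b.sum_repr' w
    rw [← hv, ← hw]
    simp only [map_sum, map_smul, hAb, FunLike.coe_sum, Finset.sum_apply, smul_apply,
      smul_eq_mul, sum_inner, inner_sum, inner_smul_left, inner_smul_right, hBb, hbb,
      RCLike.conj_to_real]
    refine Finset.sum_congr rfl fun i _ => ?_
    simp only [mul_ite, mul_one, mul_zero, Finset.sum_ite_eq', Finset.mem_univ, if_true]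
    have h1 : (√(l i))⁻¹ * ((√(l i))⁻¹ * l i) = 1 := by
      have h2 : √(l i) ^ 2 = l i := Real.sq_sqrt (hl0 i).le
      have h3 := hsq i
      field_simp
      exact h2.symm
    linear_combination (inner ℝ (b i) w * inner ℝ (b i) v) * h1
  have hadj : (LinearMap.adjoint A.toLinearMap) ∘ₗ ((gop B : E →L[ℝ] E).toLinearMap ∘ₗ
      A.toLinearMap) = LinearMap.id := by
    ext v
    refine ext_inner_right ℝ fun w => ?_
    simp only [LinearMap.comp_apply, LinearMap.adjoint_inner_left, LinearMap.id_apply,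
      ContinuousLinearMap.coe_coe, LinearEquiv.coe_coe, inner_gop]
    exact hiso v w
  have hdet : LinearMap.det A.toLinearMap * (LinearMap.det (gop B : E →L[ℝ] E).toLinearMap *
      LinearMap.det A.toLinearMap) = 1 := by
    have := congrArg LinearMap.det hadj
    rw [LinearMap.det_comp, LinearMap.det_comp, det_adj, LinearMap.det_id] at this
    exact this
  set a := LinearMap.det A.toLinearMap with ha
  set d := LinearMap.det (gop B : E →L[ℝ] E).toLinearMap with hd
  have ha0 : a ≠ 0 := by rintro h0; rw [h0] at hdet; simp at hdet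
  have hd1 : d = (a ^ 2)⁻¹ := by
    field_simp
    linarith
  have hd0 : 0 < d := by rw [hd1]; positivity
  refine ⟨A, hiso, ?_, hd0⟩
  rw [LinearMap.det_comp, ← ha, ← hd]
  have h1 : d * a = a⁻¹ := by field_simp; linarith
  rw [h1, hd1, Real.sqrt_inv, Real.sqrt_sq_eq_abs, abs_inv]

/-- the punctured ball -/
def S0 : Set E := ball (0 : E) 1 \ {0}

variable {g : E → E →L[ℝ] E →L[ℝ] ℝ} {e L : E → E → E}

lemma Xi_eq (h : Simple g e L) {x z : E} (hx : ‖x‖ < 1) (hz : z ≠ 0) :
    Xi g L (x, z) = gop (g x) (‖z‖ • uu g L x (proj z)) := by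
  refine ext_inner_right ℝ fun δ => ?_
  rw [inner_Xi h hx hz, inner_gop, map_smul, smul_apply, smul_eq_mul]

omit [FiniteDimensional ℝ E] in
lemma uu_unit (h : Simple g e L) {x p : E} (hx : ‖x‖ < 1) (hp : p ∈ sphere (0 : E) 1) :
    g x (uu g L x p) (uu g L x p) = 1 :=
  h.unit_dir (mem_of_norm_lt hx) (mem_of_sphere hp) (ne_of_sphere hx hp)

lemma gop_inj {x : E} (hp : ∀ v, v ≠ 0 → 0 < g x v v) {v w : E} (hvw : gop (g x) v = gop (g x) w) :
    v = w := by
  by_contra hne
  have h1 := hp (v - w) (sub_ne_zero.2 hne)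
  rw [← inner_gop, map_sub, hvw, sub_self, inner_zero_left] at h1
  exact lt_irrefl _ h1

omit [FiniteDimensional ℝ E] in
lemma proj_smul_norm {z : E} (hz : z ≠ 0) : ‖z‖ • proj z = z := by
  rw [proj, smul_smul, mul_inv_cancel₀ (norm_ne_zero_iff.2 hz), one_smul]

omit [FiniteDimensional ℝ E] in
/-- the direction determines the boundary point -/
lemma uu_inj (h : Simple g e L) {x p q : E} (hx : ‖x‖ < 1) (hp : p ∈ sphere (0 : E) 1)
    (hq : q ∈ sphere (0 : E) 1) (hu : uu g L x p = uu g L x q) : p = q := by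
  have hxM := mem_of_norm_lt hx
  have hxp := ne_of_sphere hx hp
  have hxq := ne_of_sphere hx hq
  have h1 := h.rho_pos hxM (mem_of_sphere hp) hxp
  have h2 := h.rho_pos hxM (mem_of_sphere hq) hxq
  refine h.exit_unique hxM hq hp hxq hxp (s := rho g L x p * (rho g L x q)⁻¹) (by positivity) ?_
  have h3 : L x p = rho g L x p • uu g L x p := by
    rw [uu, smul_smul, mul_inv_cancel₀ h1.ne', one_smul]
  rw [h3, hu, uu, smul_smul]

/-- the co-ball as an image -/
lemma fix_x [MeasurableSpace E] [BorelSpace E] (h : Simple g e L) {x : E} (hx : ‖x‖ < 1)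
    (A : E ≃ₗ[ℝ] E) (hA : ∀ v w, g x (A v) (A w) = inner ℝ v w) (F : E → ℝ≥0∞) :
    ∫⁻ z in S0, ENNReal.ofReal |(AA g L (x, z)).det| * F (uu g L x (proj z)) =
      ENNReal.ofReal |LinearMap.det ((gop (g x) : E →L[ℝ] E).toLinearMap ∘ₗ A.toLinearMap)| *
        ∫⁻ y in S0, F (A (un y)) := by
  have hxM := mem_of_norm_lt hx
  have hpos := h.pos x hxM
  have hSm : MeasurableSet (S0 : Set E) := measurableSet_ball.diff (measurableSet_singleton 0)
  set T : E →L[ℝ] E := (gop (g x)) ∘L (LinearMap.toContinuousLinearMap A.toLinearMap) with hT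
  have hTy : ∀ y, T y = gop (g x) (A y) := fun y => rfl
  have hTinj : Function.Injective T := by
    intro y y' hyy
    exact A.injective (gop_inj hpos hyy)
  have hTdet : T.det = LinearMap.det ((gop (g x) : E →L[ℝ] E).toLinearMap ∘ₗ A.toLinearMap) := rfl
  set Te : E ≃ₗ[ℝ] E := LinearEquiv.ofInjectiveEndo T.toLinearMap hTinj with hTe
  have hTe1 : ∀ y, Te y = T y := fun y => rfl
  set f : E → ℝ≥0∞ := fun ξ => F (A (un (Te.symm ξ))) with hf
  have hfT : ∀ y, f (T y) = F (A (un y)) := fun y => by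
    rw [hf]; simp only; rw [← hTe1, LinearEquiv.symm_apply_apply]
  -- comparison of the parametrisations
  have key : ∀ z : E, z ≠ 0 → ∃ y, ‖y‖ = ‖z‖ ∧ Xi g L (x, z) = T y ∧
      A (un y) = uu g L x (proj z) := by
    intro z hz
    have hu := uu_unit h hx (proj_mem hz)
    have h1 : ‖A.symm (uu g L x (proj z))‖ = 1 := by
      have h1 := hA (A.symm (uu g L x (proj z))) (A.symm (uu g L x (proj z)))
      rw [LinearEquiv.apply_symm_apply, real_inner_self_eq_norm_sq, hu] at h1
      exact (sq_eq_sq₀ (norm_nonneg _) zero_le_one).1 (by rw [← h1, one_pow])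
    have h2 : ‖(‖z‖ • A.symm (uu g L x (proj z)) : E)‖ = ‖z‖ := by
      rw [norm_smul, norm_norm, h1, mul_one]
    refine ⟨‖z‖ • A.symm (uu g L x (proj z)), h2, ?_, ?_⟩
    · rw [Xi_eq h hx hz, hTy, map_smul A, LinearEquiv.apply_symm_apply]
    · rw [un, h2, smul_smul, inv_mul_cancel₀ (norm_ne_zero_iff.2 hz), one_smul,
        LinearEquiv.apply_symm_apply]
  have hXinj : InjOn (fun z => Xi g L (x, z)) S0 := by
    intro z hz z' hz' hzz
    have hz0 : z ≠ 0 := fun h0 => hz.2 h0
    have hz0' : z' ≠ 0 := fun h0 => hz'.2 h0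
    obtain ⟨y, hy1, hy2, hy3⟩ := key z hz0
    obtain ⟨y', hy1', hy2', hy3'⟩ := key z' hz0'
    have h1 : y = y' := hTinj (by rw [← hy2, ← hy2']; exact hzz)
    have h2 : uu g L x (proj z) = uu g L x (proj z') := by rw [← hy3, ← hy3', h1]
    have h3 := uu_inj h hx (proj_mem hz0) (proj_mem hz0') h2
    rw [← proj_smul_norm hz0, ← proj_smul_norm hz0', h3, ← hy1, ← hy1', h1]
  have himg : (fun z => Xi g L (x, z)) '' S0 = T '' S0 := by
    ext ξ
    constructor
    · rintro ⟨z, hz, rfl⟩
      have hz0 : z ≠ 0 := fun h0 => hz.2 h0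
      obtain ⟨y, hy1, hy2, -⟩ := key z hz0
      refine ⟨y, ⟨?_, ?_⟩, hy2.symm⟩
      · have := hz.1; simp only [mem_ball, dist_zero_right] at this ⊢; rw [hy1]; exact this
      · simp only [mem_singleton_iff]
        rw [← norm_eq_zero, hy1, norm_eq_zero]; exact hz0
    · rintro ⟨y, hy, rfl⟩
      have hy0 : y ≠ 0 := fun h0 => hy.2 h0
      have hAy0 : A y ≠ 0 := fun h0 => hy0 ((LinearEquiv.map_eq_zero_iff A).1 h0)
      obtain ⟨q, hq, s, hs, hL⟩ := h.exit_dir hx hAy0
      have hq0 := ne_zero_of_mem_sphere' hq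
      have hxq := ne_of_sphere hx hq
      have hr := h.rho_pos hxM (mem_of_sphere hq) hxq
      have hgy : g x (A y) (A y) = ‖y‖ ^ 2 := by rw [hA, real_inner_self_eq_norm_sq]
      have hrho : rho g L x q = s * ‖y‖ := by
        rw [rho, hL]
        simp only [map_smul, smul_apply, smul_eq_mul, hgy]
        rw [show s * (s * ‖y‖ ^ 2) = (s * ‖y‖) ^ 2 by ring, Real.sqrt_sq (by positivity)]
      have hyn : ‖y‖ ≠ 0 := norm_ne_zero_iff.2 hy0
      refine ⟨‖y‖ • q, ⟨?_, ?_⟩, ?_⟩
      · have := hy.1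
        simp only [mem_ball, dist_zero_right] at this ⊢
        rw [norm_smul, norm_norm, norm_of_sphere hq, mul_one]; exact this
      · simp only [mem_singleton_iff, smul_eq_zero, not_or]
        exact ⟨hyn, hq0⟩
      · have hpr : proj (‖y‖ • q) = q := by
          rw [proj, norm_smul, norm_norm, norm_of_sphere hq, mul_one, smul_smul,
            inv_mul_cancel₀ hyn, one_smul]
        simp only
        rw [Xi_eq h hx (smul_ne_zero hyn hq0), hpr, norm_smul, norm_norm, norm_of_sphere hq,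
          mul_one, hTy, uu, hL, hrho, smul_smul, smul_smul]
        congr 1
        rw [show ‖y‖ * (s * ‖y‖)⁻¹ * s = 1 by field_simp, one_smul]
  have h1 := lintegral_image_eq_lintegral_abs_det_fderiv_mul volume hSm
    (fun z hz => (hasFDerivAt_Xi h hx (fun h0 => hz.2 h0)).hasFDerivWithinAt) hXinj f
  have h2 := lintegral_image_eq_lintegral_abs_det_fderiv_mul volume hSm
    (fun y _ => (T.hasFDerivAt (x := y)).hasFDerivWithinAt) hTinj.injOn f
  rw [himg] at h1
  rw [← hTdet]
  calc _ = ∫⁻ z in S0, ENNReal.ofReal |(BB g L (x, z)).det| * f (Xi g L (x, z)) := by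
        refine setLIntegral_congr_fun hSm fun z hz => ?_
        have hz0 : z ≠ 0 := fun h0 => hz.2 h0
        obtain ⟨y, hy1, hy2, hy3⟩ := key z hz0
        rw [abs_det_BB h ⟨hx, hz0⟩, hy2, hfT, hy3]
    _ = ∫⁻ y in S0, ENNReal.ofReal |T.det| * f (T y) := by rw [← h1, ← h2]
    _ = ENNReal.ofReal |T.det| * ∫⁻ y in S0, F (A (un y)) := by
        rw [← lintegral_const_mul' _ _ ENNReal.ofReal_ne_top]
        refine setLIntegral_congr_fun hSm fun y hy => ?_
        simp only [hfT]

end Pool.Agent.W9h56.BE
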