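import Mathlib

/-!
# Integrals over parallel lines, and averages over the unit ball
-/

open Set Metric Filter Topology MeasureTheory
open scoped ContDiff RealInnerProductSpace ENNReal

noncomputable section

namespace Pool.Agent.W9h56.BE

variable {E : Type*} [NormedAddCommGroup E] [InnerProductSpace ℝ E] [FiniteDimensional ℝ E]
  [MeasurableSpace E] [BorelSpace E]

/-- integration over a slab of parallel lines -/
lemma lintegral_slab {f : E → ℝ≥0∞} (hf : Measurable f) {p : E} (hp : ‖p‖ = 1) :
    ∫⁻ y, f y = ∫⁻ y, (indicator (Ico (0 : ℝ) 1) 1 (inner ℝ p y)) * ∫⁻ s : ℝ, f (y + s • p) := by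
  set k : ℝ → ℝ≥0∞ := indicator (Ico (0 : ℝ) 1) 1 with hk
  have hkm : Measurable k := measurable_one.indicator measurableSet_Ico
  have hk1 : ∀ c : ℝ, ∫⁻ s : ℝ, k (c - s) = 1 := by
    intro c
    rw [lintegral_sub_left_eq_self (fun s => k s) c, hk, lintegral_indicator_one measurableSet_Ico]
    simp
  have h1 : ∀ y : E, f y = ∫⁻ s : ℝ, f y * k (inner ℝ p y - s) := by
    intro y
    rw [lintegral_const_mul _ (by fun_prop), hk1, mul_one]
  calc ∫⁻ y, f y = ∫⁻ y, ∫⁻ s : ℝ, f y * k (inner ℝ p y - s) := lintegral_congr h1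
    _ = ∫⁻ s : ℝ, ∫⁻ y, f y * k (inner ℝ p y - s) := by
        apply lintegral_lintegral_swap
        apply Measurable.aemeasurable
        exact (hf.comp measurable_fst).mul (hkm.comp (by fun_prop))
    _ = ∫⁻ s : ℝ, ∫⁻ y, f (y + s • p) * k (inner ℝ p y) := by
        refine lintegral_congr fun s => ?_
        rw [← lintegral_add_right_eq_self _ (s • p)]
        refine lintegral_congr fun y => ?_
        congr 2
        rw [inner_add_right, inner_smul_right, real_inner_self_eq_norm_sq, hp]
        ring
    _ = ∫⁻ y, ∫⁻ s : ℝ, f (y + s • p) * k (inner ℝ p y) := by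
        apply lintegral_lintegral_swap
        apply Measurable.aemeasurable
        exact (hf.comp (by fun_prop)).mul (hkm.comp (by fun_prop))
    _ = _ := by
        refine lintegral_congr fun y => ?_
        have h2 : Measurable fun s : ℝ => f (y + s • p) := hf.comp (by fun_prop)
        rw [lintegral_mul_const _ h2, mul_comm]

/-- comparison of integrals along parallel lines -/
lemma lintegral_le_of_lines {f h : E → ℝ≥0∞} (hf : Measurable f) (hh : Measurable h) {p : E}
    (hp : ‖p‖ = 1) (hle : ∀ y, ∫⁻ s : ℝ, f (y + s • p) ≤ ∫⁻ s : ℝ, h (y + s • p)) :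
    ∫⁻ y, f y ≤ ∫⁻ y, h y := by
  rw [lintegral_slab hf hp, lintegral_slab hh hp]
  exact lintegral_mono fun y => mul_le_mul_right (hle y) _

end Pool.Agent.W9h56.BE
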