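import Pool.Agent.W9h56.BE.Core
import Pool.Agent.W9h56.BE.Var

/-!
# The basic inequality
-/

open Set Metric Filter Topology MeasureTheory
open scoped ContDiff RealInnerProductSpace ENNReal

noncomputable section

set_option maxSynthPendingDepth 3

namespace Pool.Agent.W9h56.BE

open Pool.Agent.W5h72.BR

variable {E : Type*} [NormedAddCommGroup E] [InnerProductSpace ℝ E] [FiniteDimensional ℝ E]
  [MeasurableSpace E] [BorelSpace E]

variable {g g' : E → E →L[ℝ]
    E →L[ℝ] ℝ}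
  {e L e' L' : E → E → E}
  {φ : E → E}


lemma Simple_isMetric (h : Simple g e L) : IsMetric g := ⟨h.smooth.continuous, h.symm, h.pos⟩

lemma dens_nonneg (B : E →L[ℝ] E →L[ℝ] ℝ) : 0 ≤ dens B := Real.sqrt_nonneg _

lemma nontriv (hn : 0 < Module.finrank ℝ E) : Nontrivial E := by
  have i0 : Fin (Module.finrank ℝ E) := ⟨0, hn⟩
  refine ⟨⟨stdOrthonormalBasis ℝ E i0, 0, fun h => ?_⟩⟩
  have := (stdOrthonormalBasis ℝ E).orthonormal.1 i0
  rw [h, norm_zero] at this
  simp at this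

/-- the pull-back in a frame -/
def inFrame (C : E →L[ℝ] E →L[ℝ] ℝ) (A : E ≃ₗ[ℝ] E) : E →L[ℝ] E →L[ℝ] ℝ :=
  C.bilinearComp (LinearMap.toContinuousLinearMap A.toLinearMap)
    (LinearMap.toContinuousLinearMap A.toLinearMap)

lemma inFrame_apply (C : E →L[ℝ] E →L[ℝ] ℝ) (A : E ≃ₗ[ℝ] E) (v w : E) :
    inFrame C A v w = C (A v) (A w) := rfl

/-- `A` is a frame field for `g` -/
def IsFrame (g : E → E →L[ℝ] E →L[ℝ] ℝ) (A : E → E ≃ₗ[ℝ] E) : Prop :=
  ∀ x ∈ closedBall (0 : E) 1, (∀ v w, g x (A x v) (A x w) = inner ℝ v w) ∧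
    |LinearMap.det ((gop (g x) : E →L[ℝ] E).toLinearMap ∘ₗ (A x).toLinearMap)| = dens (g x)

lemma exists_isFrame (hg : IsMetric g) : ∃ A, IsFrame g A := by
  classical
  have h1 : ∀ x : E, ∃ A : E ≃ₗ[ℝ] E, x ∈ closedBall (0 : E) 1 →
      (∀ v w, g x (A v) (A w) = inner ℝ v w) ∧
        |LinearMap.det ((gop (g x) : E →L[ℝ] E).toLinearMap ∘ₗ A.toLinearMap)| = dens (g x) := by
    intro x
    by_cases hx : x ∈ closedBall (0 : E) 1
    · obtain ⟨A, h1, h2, -⟩ := frame hg hx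
      exact ⟨A, fun _ => ⟨h1, h2⟩⟩
    · exact ⟨LinearEquiv.refl ℝ E, fun h => absurd h hx⟩
  choose A hA using h1
  exact ⟨A, hA⟩

lemma lint_S0 (hn : 0 < Module.finrank ℝ E) {f : E → ℝ} (hf : IntegrableOn f (ball (0 : E) 1)) (hf0 : ∀ y, 0 ≤ f y) :
    ∫⁻ y in S0, ENNReal.ofReal (f y) = ENNReal.ofReal (∫ y in ball (0 : E) 1, f y) := by
  have := nontriv hn
  rw [ofReal_integral_eq_lintegral_ofReal hf (Eventually.of_forall hf0)]
  refine setLIntegral_congr ?_
  exact sdiff_null_ae_eq_self (measure_singleton 0)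

lemma pull_nonneg (hg : IsMetric g') (hφ : IsBdryMap φ) {x : E} (hx : x ∈ closedBall (0 : E) 1)
    (v : E) : 0 ≤ pull φ g' x v v := hg.nonneg (hφ.maps hx) _

/-- total measure of the unit directions -/
lemma fix_one (hn : 0 < Module.finrank ℝ E) (h : Simple g e L) {A : E → E ≃ₗ[ℝ] E} (hA : IsFrame g A) {x : E}
    (hx : ‖x‖ < 1) : ∫⁻ z in S0, ENNReal.ofReal |(AA g L (x, z)).det| =
      ENNReal.ofReal (dens (g x) * om E) := by
  obtain ⟨h1, h2⟩ := hA x (mem_of_norm_lt hx)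
  have h3 := fix_x h hx (A x) h1 fun _ => 1
  simp only [mul_one] at h3
  rw [h3, h2, ENNReal.ofReal_mul (dens_nonneg _)]
  congr 1
  have h4 := lint_S0 hn (f := fun _ => 1) (integrableOn_const measure_ball_lt_top.ne)
    fun _ => zero_le_one
  simp only [ENNReal.ofReal_one] at h4
  rw [h4, setIntegral_const, smul_eq_mul, mul_one, om]

lemma fix_two (hn : 0 < Module.finrank ℝ E) (h : Simple g e L) {A : E → E ≃ₗ[ℝ] E} (hA : IsFrame g A) {x : E}
    (hx : ‖x‖ < 1) :
    ∫⁻ z in S0, ENNReal.ofReal |(AA g L (x, z)).det| * ENNReal.ofReal (FF g g' L φ (x, z)) =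
      ENNReal.ofReal (dens (g x) * mn (inFrame (pull φ g' x) (A x))) := by
  obtain ⟨h1, h2⟩ := hA x (mem_of_norm_lt hx)
  have h3 := fix_x h hx (A x) h1 fun u => ENNReal.ofReal √(pull φ g' x u u)
  simp only [FF]
  rw [h3, h2, ENNReal.ofReal_mul (dens_nonneg _)]
  congr 1
  exact lint_S0 hn (int_sqrt (inFrame (pull φ g' x) (A x))) fun _ => Real.sqrt_nonneg _

theorem core (hn : 0 < Module.finrank ℝ E) (h : Simple g e L) (hg : IsMetric g') (hφ : IsBdryMap φ)
    (hd : ∀ p ∈ sphere (0 : E) 1, ∀ q ∈ sphere (0 : E) 1, gdist g p q ≤ gdist g' p q)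
    {A : E → E ≃ₗ[ℝ] E} (hA : IsFrame g A) :
    ∫⁻ x in ball (0 : E) 1, ENNReal.ofReal (dens (g x) * om E) ≤
      ∫⁻ x in ball (0 : E) 1, ENNReal.ofReal (dens (g x) * mn (inFrame (pull φ g' x) (A x))) := by
  have h1 := ton h hg hφ hd
  have h2 : ∫⁻ x in ball (0 : E) 1, ∫⁻ z in S0, ENNReal.ofReal |(AA g L (x, z)).det| =
      ∫⁻ x in ball (0 : E) 1, ENNReal.ofReal (dens (g x) * om E) :=
    setLIntegral_congr_fun measurableSet_ball fun x hx => fix_one hn h hA (by simpa using hx)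
  have h3 : ∫⁻ x in ball (0 : E) 1, ∫⁻ z in S0, ENNReal.ofReal |(AA g L (x, z)).det| *
        ENNReal.ofReal (FF g g' L φ (x, z)) =
      ∫⁻ x in ball (0 : E) 1, ENNReal.ofReal (dens (g x) * mn (inFrame (pull φ g' x) (A x))) :=
    setLIntegral_congr_fun measurableSet_ball fun x hx => fix_two hn h hA (by simpa using hx)
  rwa [h2, h3] at h1

/-- the energy density in a frame -/
lemma ntr_frame {A : E → E ≃ₗ[ℝ] E} (hA : IsFrame g A) {x : E} (hx : x ∈ closedBall (0 : E) 1)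
    (C : E →L[ℝ] E →L[ℝ] ℝ) :
    ntr (g x) C = (∑ i, inFrame C (A x) (stdOrthonormalBasis ℝ E i)
      (stdOrthonormalBasis ℝ E i)) / Module.finrank ℝ E := frame_trace (hA x hx).1 C

lemma ntr_nonneg (hg : IsMetric g) (hg' : IsMetric g') (hφ : IsBdryMap φ) {x : E}
    (hx : x ∈ closedBall (0 : E) 1) : 0 ≤ ntr (g x) (pull φ g' x) := by
  obtain ⟨A, hA⟩ := exists_isFrame hg
  rw [ntr_frame hA hx]
  exact div_nonneg (Finset.sum_nonneg fun i _ => pull_nonneg hg' hφ hx _) (Nat.cast_nonneg _)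

lemma mn_le_ntr (hn : 0 < Module.finrank ℝ E) (hg' : IsMetric g') (hφ : IsBdryMap φ)
    {A : E → E ≃ₗ[ℝ] E} (hA : IsFrame g A) {x : E} (hx : x ∈ closedBall (0 : E) 1) :
    mn (inFrame (pull φ g' x) (A x)) ≤ om E * √(ntr (g x) (pull φ g' x)) := by
  rw [ntr_frame hA hx]
  exact mn_le hn _ _ fun v => pull_nonneg hg' hφ hx _

lemma closedBall_ae : (ball (0 : E) 1 : Set E) =ᵐ[volume] closedBall (0 : E) 1 := by
  rw [← closedBall_sdiff_sphere]
  exact sdiff_null_ae_eq_self (Measure.addHaar_sphere_of_ne_zero _ _ one_ne_zero)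

lemma intOn {f : E → ℝ} (hf : ContinuousOn f (closedBall (0 : E) 1)) :
    IntegrableOn f (closedBall (0 : E) 1) :=
  hf.integrableOn_compact (isCompact_closedBall 0 1)

lemma lint_ball {f : E → ℝ} (hf : ContinuousOn f (closedBall (0 : E) 1))
    (hf0 : ∀ x ∈ closedBall (0 : E) 1, 0 ≤ f x) :
    ∫⁻ x in ball (0 : E) 1, ENNReal.ofReal (f x) =
      ENNReal.ofReal (∫ x in closedBall (0 : E) 1, f x) := by
  rw [setLIntegral_congr closedBall_ae, ofReal_integral_eq_lintegral_ofReal (intOn hf)]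
  exact (ae_restrict_iff' measurableSet_closedBall).2 (Eventually.of_forall hf0)

lemma cont_sqrt (hg : IsMetric g) (hg' : IsMetric g') (hφ : IsBdryMap φ) :
    ContinuousOn (fun x => √(ntr (g x) (pull φ g' x))) (closedBall (0 : E) 1) :=
  (continuousOn_ntr hg (continuous_pull hg'.cont hφ.smooth)).sqrt

/-- the inequality for the exponent one -/
theorem main_one (hn : 0 < Module.finrank ℝ E) (h : Simple g e L) (hg : IsMetric g') (hφ : IsBdryMap φ)
    (hd : ∀ p ∈ sphere (0 : E) 1, ∀ q ∈ sphere (0 : E) 1, gdist g p q ≤ gdist g' p q) :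
    vol g ≤ ∫ x in closedBall (0 : E) 1, √(ntr (g x) (pull φ g' x)) * dens (g x) := by
  have hgm := Simple_isMetric h
  obtain ⟨A, hA⟩ := exists_isFrame hgm
  have h1 := core hn h hg hφ hd hA
  have hom := om_pos (E := E)
  have hcs := cont_sqrt hgm hg hφ
  have hcd := (continuous_dens hgm.cont).continuousOn (s := closedBall (0 : E) 1)
  have h2 : ∫⁻ x in ball (0 : E) 1,
      ENNReal.ofReal (dens (g x) * mn (inFrame (pull φ g' x) (A x))) ≤
      ∫⁻ x in ball (0 : E) 1,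
        ENNReal.ofReal (om E * (√(ntr (g x) (pull φ g' x)) * dens (g x))) := by
    refine setLIntegral_mono' measurableSet_ball fun x hx => ENNReal.ofReal_le_ofReal ?_
    have := mul_le_mul_of_nonneg_left (mn_le_ntr hn hg hφ hA (ball_subset_closedBall hx))
      (dens_pos hgm (ball_subset_closedBall hx)).le
    linarith
  have h3 := h1.trans h2
  rw [lint_ball (f := fun x => dens (g x) * om E) (hcd.mul continuousOn_const)
      fun x hx => mul_nonneg (dens_pos hgm hx).le hom.le,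
    lint_ball (f := fun x => om E * (√(ntr (g x) (pull φ g' x)) * dens (g x)))
      (continuousOn_const.mul (hcs.mul hcd)) fun x hx => mul_nonneg hom.le
      (mul_nonneg (Real.sqrt_nonneg _) (dens_pos hgm hx).le),
    ENNReal.ofReal_le_ofReal_iff, integral_mul_const, integral_const_mul] at h3
  · rw [vol]
    nlinarith
  · exact setIntegral_nonneg measurableSet_closedBall fun x hx => mul_nonneg hom.le
      (mul_nonneg (Real.sqrt_nonneg _) (dens_pos hgm hx).le)

end Pool.Agent.W9h56.BE
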