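import Pool.Agent.W9h56.BE.Fix

/-!
# Change of variables for a fixed boundary point: geodesics become parallel lines
-/

open Set Metric Filter Topology MeasureTheory
open scoped ContDiff RealInnerProductSpace ENNReal

noncomputable section

set_option maxSynthPendingDepth 3

namespace Pool.Agent.W9h56.BE

open Pool.Agent.W5h72.BR

variable {E : Type*} [NormedAddCommGroup E] [InnerProductSpace ℝ E]

variable {g : E → E →L[ℝ] E →L[ℝ] ℝ} {e L : E → E → E}

lemma vec_unique (h : Simple g e L) {p u v : E} (hp : p ∈ sphere (0 : E) 1) (hu1 : g p u u = 1)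
    (hv1 : g p v v = 1) (hu : inner ℝ p u < 0) (hv : inner ℝ p v < 0)
    (ht : ∀ ζ, inner ℝ p ζ = 0 → g p u ζ = g p v ζ) : u = v := by
  have hpM := mem_of_sphere hp
  refine sub_eq_zero.1 (eq_zero_of_split (h.pos p hpM) (p := p) (u := u + v)
    (by rw [inner_add_right]; linarith) (fun ζ hζ => ?_) ?_)
  · rw [map_sub, sub_apply, ht ζ hζ, sub_self]
  · simp only [map_sub, map_add, sub_apply]
    rw [h.symm p hpM v u]
    linarith

lemma uu_inj' (h : Simple g e L) {x p q : E} (hxM : x ∈ closedBall (0 : E) 1)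
    (hp : p ∈ sphere (0 : E) 1) (hq : q ∈ sphere (0 : E) 1) (hxp : x ≠ p) (hxq : x ≠ q)
    (hu : uu g L x p = uu g L x q) : p = q := by
  have h1 := h.rho_pos hxM (mem_of_sphere hp) hxp
  have h2 := h.rho_pos hxM (mem_of_sphere hq) hxq
  refine h.exit_unique hxM hq hp hxq hxp (s := rho g L x p * (rho g L x q)⁻¹) (by positivity) ?_
  have h3 : L x p = rho g L x p • uu g L x p := by
    rw [uu, smul_smul, mul_inv_cancel₀ h1.ne', one_smul]
  rw [h3, hu, uu, smul_smul]

lemma uu_seg (h : Simple g e L) {p q : E} (hp : p ∈ closedBall (0 : E) 1)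
    (hq : q ∈ closedBall (0 : E) 1) {t : ℝ} (ht : t ∈ Ioc (0 : ℝ) 1) :
    uu g L p (e p (t • L p q)) = uu g L p q := by
  have ht' := Ioc_subset_Icc_self ht
  rw [uu, uu, h.rho_pt hp hq ht', h.L_pt hp hq ht', smul_smul]
  congr 1
  have := ht.1.ne'
  field_simp

variable [FiniteDimensional ℝ E]

/-- the tangential part of the gradient -/
def tau (g : E → E →L[ℝ] E →L[ℝ] ℝ) (L : E → E → E) (p q : E) : E :=
  -(gop (g p) (uu g L p q) - (g p (uu g L p q) p) • p)

lemma inner_tau {p : E} (q ζ : E) : inner ℝ (tau g L p q) ζ =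
    - g p (uu g L p q) (ζ - inner ℝ p ζ • p) := by
  rw [tau, inner_neg_left, inner_sub_left, inner_gop, inner_smul_left, map_sub, map_smul]
  simp only [RCLike.conj_to_real, smul_eq_mul]
  ring

lemma inner_tau_self {p : E} (hp : p ∈ sphere (0 : E) 1) (q : E) :
    inner ℝ (tau g L p q) p = 0 := by
  rw [inner_tau, real_inner_self_eq_norm_sq, norm_of_sphere hp, one_pow, one_smul, sub_self,
    map_zero, neg_zero]

lemma Th_seg (h : Simple g e L) {z q : E} (hz : z ≠ 0) (hq : q ∈ sphere (0 : E) 1)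
    (hpq : proj z ≠ q) {t : ℝ} (ht : t ∈ Ioo (0 : ℝ) 1) :
    Th g L (e (proj z) (t • L (proj z) q), z) =
      (t * rho g L (proj z) q) • proj z + tau g L (proj z) q := by
  have hp := proj_mem hz
  have hpM := mem_of_sphere hp
  have hqM := mem_of_sphere hq
  have hx := h.pt_interior hpM hqM hpq ht
  refine ext_inner_right ℝ fun ζ => ?_
  rw [inner_Th h hx hz, inner_add_left, inner_tau, inner_smul_left,
    h.rho_symm (mem_of_norm_lt hx) hpM, h.rho_pt hpM hqM (Ioo_subset_Icc_self ht),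
    uu_seg h hpM hqM (Ioo_subset_Ioc_self ht)]
  simp only [RCLike.conj_to_real]
  ring

/-- the image of the ball -/
def Om (g : E → E →L[ℝ] E →L[ℝ] ℝ) (L : E → E → E) (z : E) : Set E :=
  (fun x => Th g L (x, z)) '' ball (0 : E) 1

lemma mem_Om (h : Simple g e L) {z y : E} (hz : z ≠ 0) : y ∈ Om g L z ↔
    ∃ q ∈ sphere (0 : E) 1, proj z ≠ q ∧ ∃ s ∈ Ioo (0 : ℝ) (rho g L (proj z) q),
      y = s • proj z + tau g L (proj z) q := by
  have hp := proj_mem hz
  have hpM := mem_of_sphere hp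
  constructor
  · rintro ⟨x, hx, rfl⟩
    have hx1 : ‖x‖ < 1 := by simpa using hx
    obtain ⟨q, hq, t, ht, hx2, -⟩ := h.exit_seg hpM hx1 (ne_of_sphere hx1 hp).symm
    have hpq : proj z ≠ q := by
      rintro h0
      rw [← h0, h.L_self hpM, smul_zero, h.e_zero hpM] at hx2
      exact ne_of_sphere hx1 hp hx2
    have hr := h.rho_pos hpM (mem_of_sphere hq) hpq
    refine ⟨q, hq, hpq, t * rho g L (proj z) q, ⟨mul_pos ht.1 hr, ?_⟩, ?_⟩
    · nlinarith [ht.2]
    · simp only
      rw [hx2, Th_seg h hz hq hpq ht]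
  · rintro ⟨q, hq, hpq, s, hs, rfl⟩
    have hr := h.rho_pos hpM (mem_of_sphere hq) hpq
    have ht : s / rho g L (proj z) q ∈ Ioo (0 : ℝ) 1 :=
      ⟨div_pos hs.1 hr, (div_lt_one hr).2 hs.2⟩
    refine ⟨e (proj z) ((s / rho g L (proj z) q) • L (proj z) q), ?_, ?_⟩
    · have := h.pt_interior hpM (mem_of_sphere hq) hpq ht
      simpa using this
    · simp only
      rw [Th_seg h hz hq hpq ht, div_mul_cancel₀ _ hr.ne']

omit [FiniteDimensional ℝ E] in
lemma uu_in (h : Simple g e L) {p q : E} (hp : p ∈ sphere (0 : E) 1)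
    (hq : q ∈ closedBall (0 : E) 1) (hpq : p ≠ q) : inner ℝ p (uu g L p q) < 0 := by
  rw [uu, inner_smul_right]
  exact mul_neg_of_pos_of_neg (inv_pos.2 (h.rho_pos (mem_of_sphere hp) hq hpq))
    (h.L_inward hp hq hpq)

lemma rep_unique (h : Simple g e L) {p q q' : E} (hp : p ∈ sphere (0 : E) 1)
    (hq : q ∈ sphere (0 : E) 1) (hq' : q' ∈ sphere (0 : E) 1) (hpq : p ≠ q) (hpq' : p ≠ q')
    {s s' : ℝ} (heq : s • p + tau g L p q = s' • p + tau g L p q') : s = s' ∧ q = q' := by
  have hpM := mem_of_sphere hp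
  have h1 := congrArg (fun y => inner ℝ y p) heq
  simp only [inner_add_left, inner_smul_left, inner_tau_self hp, RCLike.conj_to_real,
    real_inner_self_eq_norm_sq, norm_of_sphere hp, one_pow, mul_one, add_zero] at h1
  refine ⟨h1, ?_⟩
  rw [h1] at heq
  have h2 := add_left_cancel heq
  refine uu_inj' h hpM hq hq' hpq hpq' (vec_unique h hp
    (h.unit_dir hpM (mem_of_sphere hq) hpq) (h.unit_dir hpM (mem_of_sphere hq') hpq')
    (uu_in h hp (mem_of_sphere hq) hpq) (uu_in h hp (mem_of_sphere hq') hpq') fun ζ hζ => ?_)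
  have h3 := congrArg (fun y => inner ℝ y ζ) h2
  simp only [inner_tau, hζ, zero_smul, sub_zero] at h3
  linarith

lemma Th_inj (h : Simple g e L) {z : E} (hz : z ≠ 0) :
    InjOn (fun x => Th g L (x, z)) (ball (0 : E) 1) := by
  have hp := proj_mem hz
  have hpM := mem_of_sphere hp
  have key : ∀ x ∈ ball (0 : E) 1, ∃ q ∈ sphere (0 : E) 1, proj z ≠ q ∧ ∃ t ∈ Ioo (0 : ℝ) 1,
      x = e (proj z) (t • L (proj z) q) := by
    intro x hx
    have hx1 : ‖x‖ < 1 := by simpa using hx
    obtain ⟨q, hq, t, ht, hx2, -⟩ := h.exit_seg hpM hx1 (ne_of_sphere hx1 hp).symm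
    refine ⟨q, hq, ?_, t, ht, hx2⟩
    rintro h0
    rw [← h0, h.L_self hpM, smul_zero, h.e_zero hpM] at hx2
    exact ne_of_sphere hx1 hp hx2
  intro x hx x' hx' hxx
  obtain ⟨q, hq, hpq, t, ht, h1⟩ := key x hx
  obtain ⟨q', hq', hpq', t', ht', h1'⟩ := key x' hx'
  simp only at hxx
  rw [h1, h1', Th_seg h hz hq hpq ht, Th_seg h hz hq' hpq' ht'] at hxx
  obtain ⟨h2, h3⟩ := rep_unique h hp hq hq' hpq hpq' hxx
  rw [← h3] at h2
  have h4 := mul_right_cancel₀ (h.rho_pos hpM (mem_of_sphere hq) hpq).ne' h2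
  rw [h1, h1', h3, h4]

section fixed

variable [MeasurableSpace E] [BorelSpace E]

/-- comparison along one line -/
lemma line_le (h : Simple g e L) {z : E} (hz : z ≠ 0) {f : E → ℝ≥0∞} {F : E → ℝ≥0∞}
    (hf : ∀ x ∈ ball (0 : E) 1, f (Th g L (x, z)) = F x)
    (hlen : ∀ q ∈ sphere (0 : E) 1, proj z ≠ q → ENNReal.ofReal (rho g L (proj z) q) ≤
      ∫⁻ s in Ioo (0 : ℝ) (rho g L (proj z) q),
        F (e (proj z) ((s / rho g L (proj z) q) • L (proj z) q))) (y : E) :
    ∫⁻ s : ℝ, indicator (Om g L z) (1 : E → ℝ≥0∞) (y + s • proj z) ≤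
      ∫⁻ s : ℝ, f (y + s • proj z) := by
  have hp := proj_mem hz
  have hpM := mem_of_sphere hp
  by_cases hex : ∃ s0 : ℝ, y + s0 • proj z ∈ Om g L z
  swap
  · have h0 : ∀ s : ℝ, indicator (Om g L z) (1 : E → ℝ≥0∞) (y + s • proj z) = 0 := fun s =>
      indicator_of_notMem (fun hs => hex ⟨s, hs⟩) _
    simp [h0]
  obtain ⟨s0, hs0⟩ := hex
  obtain ⟨q, hq, hpq, s1, hs1, hy⟩ := (mem_Om h hz).1 hs0
  have hr := h.rho_pos hpM (mem_of_sphere hq) hpq
  set r := rho g L (proj z) q with hrd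
  set c := s1 - s0 with hc
  have hy' : ∀ s : ℝ, y + s • proj z = (s + c) • proj z + tau g L (proj z) q := by
    intro s
    have h1 : y = s1 • proj z + tau g L (proj z) q - s0 • proj z := by rw [← hy]; abel
    rw [h1, hc]
    simp only [add_smul, sub_smul]
    abel
  simp only [hy']
  rw [lintegral_add_right_eq_self (fun s : ℝ => indicator (Om g L z) (1 : E → ℝ≥0∞)
    (s • proj z + tau g L (proj z) q)) c,
    lintegral_add_right_eq_self (fun s : ℝ => f (s • proj z + tau g L (proj z) q)) c]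
  have h1 : ∀ s : ℝ, indicator (Om g L z) (1 : E → ℝ≥0∞) (s • proj z + tau g L (proj z) q) ≤
      indicator (Ioo (0 : ℝ) r) 1 s := by
    intro s
    by_cases hs : s • proj z + tau g L (proj z) q ∈ Om g L z
    · obtain ⟨q', hq', hpq', s', hs', heq⟩ := (mem_Om h hz).1 hs
      obtain ⟨h2, h3⟩ := rep_unique h hp hq hq' hpq hpq' heq
      rw [indicator_of_mem (show s ∈ Ioo (0 : ℝ) r by rw [h2, hrd, h3]; exact hs')]
      exact indicator_le_self _ _ _
    · rw [indicator_of_notMem hs]; exact bot_le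
  calc ∫⁻ s : ℝ, indicator (Om g L z) (1 : E → ℝ≥0∞) (s • proj z + tau g L (proj z) q)
      ≤ ∫⁻ s : ℝ, indicator (Ioo (0 : ℝ) r) 1 s := lintegral_mono h1
    _ = ENNReal.ofReal r := by
        rw [lintegral_indicator_one measurableSet_Ioo, Real.volume_Ioo, sub_zero]
    _ ≤ ∫⁻ s in Ioo (0 : ℝ) r, F (e (proj z) ((s / r) • L (proj z) q)) := hlen q hq hpq
    _ = ∫⁻ s in Ioo (0 : ℝ) r, f (s • proj z + tau g L (proj z) q) := by
        refine setLIntegral_congr_fun measurableSet_Ioo fun s hs => ?_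
        have ht : s / r ∈ Ioo (0 : ℝ) 1 := ⟨div_pos hs.1 hr, (div_lt_one hr).2 hs.2⟩
        rw [← hf _ (by
          have := h.pt_interior hpM (mem_of_sphere hq) hpq ht
          simpa using this), Th_seg h hz hq hpq ht, ← hrd, div_mul_cancel₀ _ hr.ne']
    _ ≤ ∫⁻ s : ℝ, f (s • proj z + tau g L (proj z) q) := setLIntegral_le_lintegral _ _

/-- the comparison for a fixed boundary point -/
lemma fix_z (h : Simple g e L) {z : E} (hz : z ≠ 0) {F : E → ℝ≥0∞}
    (hF : Measurable fun x : ball (0 : E) 1 => F x)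
    (hlen : ∀ q ∈ sphere (0 : E) 1, proj z ≠ q → ENNReal.ofReal (rho g L (proj z) q) ≤
      ∫⁻ s in Ioo (0 : ℝ) (rho g L (proj z) q),
        F (e (proj z) ((s / rho g L (proj z) q) • L (proj z) q))) :
    ∫⁻ x in ball (0 : E) 1, ENNReal.ofReal |(AA g L (x, z)).det| ≤
      ∫⁻ x in ball (0 : E) 1, ENNReal.ofReal |(AA g L (x, z)).det| * F x := by
  have hd : ∀ x ∈ ball (0 : E) 1, HasFDerivWithinAt (fun x => Th g L (x, z)) (AA g L (x, z))
      (ball (0 : E) 1) x := fun x hx =>
    (hasFDerivAt_Th h (by simpa using hx) hz).hasFDerivWithinAt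
  have hinj := Th_inj h hz
  have hemb := measurableEmbedding_of_fderivWithin measurableSet_ball hd hinj
  obtain ⟨f0, hf0, hf0c⟩ := hemb.exists_measurable_extend hF fun _ => inferInstance
  have hOm : MeasurableSet (Om g L z) := by
    have := hemb.measurableSet_range
    rwa [Set.range_domRestrict] at this
  set f : E → ℝ≥0∞ := indicator (Om g L z) f0 with hf
  have hfm : Measurable f := hf0.indicator hOm
  have hfF : ∀ x ∈ ball (0 : E) 1, f (Th g L (x, z)) = F x := by
    intro x hx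
    rw [hf, indicator_of_mem (show Th g L (x, z) ∈ Om g L z from mem_image_of_mem _ hx)]
    exact congrFun hf0c ⟨x, hx⟩
  have h1 := lintegral_le_of_lines (measurable_one.indicator hOm) hfm (norm_of_sphere (proj_mem hz))
    (line_le h hz hfF hlen)
  have h2 := lintegral_image_eq_lintegral_abs_det_fderiv_mul volume measurableSet_ball hd hinj 1
  have h3 := lintegral_image_eq_lintegral_abs_det_fderiv_mul volume measurableSet_ball hd hinj f
  have h4 : ∫⁻ y, f y = ∫⁻ y in Om g L z, f y := by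
    rw [← lintegral_indicator hOm, hf]
    congr 1
    ext y
    rw [indicator_indicator, inter_self]
  rw [lintegral_indicator hOm, h4] at h1
  have h5 : ∫⁻ x in ball (0 : E) 1, ENNReal.ofReal |(AA g L (x, z)).det| * F x =
      ∫⁻ x in ball (0 : E) 1, ENNReal.ofReal |(AA g L (x, z)).det| * f (Th g L (x, z)) :=
    setLIntegral_congr_fun measurableSet_ball fun x hx => by rw [hfF x hx]
  rw [h5, ← h3]
  simp only [Pi.one_apply, mul_one] at h2
  rw [← h2]
  exact h1

/-- the volume of the image -/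
lemma vol_z (h : Simple g e L) {z : E} (hz : z ≠ 0) :
    ∫⁻ x in ball (0 : E) 1, ENNReal.ofReal |(AA g L (x, z)).det| = volume (Om g L z) := by
  have hd : ∀ x ∈ ball (0 : E) 1, HasFDerivWithinAt (fun x => Th g L (x, z)) (AA g L (x, z))
      (ball (0 : E) 1) x := fun x hx =>
    (hasFDerivAt_Th h (by simpa using hx) hz).hasFDerivWithinAt
  have h2 := lintegral_image_eq_lintegral_abs_det_fderiv_mul volume measurableSet_ball hd
    (Th_inj h hz) 1
  simp only [Pi.one_apply, mul_one] at h2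
  rw [← h2, lintegral_one, Measure.restrict_apply_univ]
  rfl

end fixed

end Pool.Agent.W9h56.BE
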