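import Pool.Agent.W9h56.BE.Cone
import Pool.Agent.W9h56.BE.Speed

/-!
# The mean stretch
-/

open Set Metric Filter Topology MeasureTheory
open scoped ContDiff RealInnerProductSpace ENNReal

noncomputable section

set_option maxSynthPendingDepth 3

namespace Pool.Agent.W9h56.BE

open Pool.Agent.W5h72.BR

variable {E : Type*} [NormedAddCommGroup E] [InnerProductSpace ℝ E] [FiniteDimensional ℝ E]
  [MeasurableSpace E] [BorelSpace E]

variable {g g' : E → E →L[ℝ] E →L[ℝ] ℝ} {e L e' L' : E → E → E} {φ : E → E}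

lemma stretch_frame {A : E → E ≃ₗ[ℝ] E} (hA : IsFrame g A) {x : E}
    (hx : x ∈ closedBall (0 : E) 1) :
    stretch g g' φ x = mn (inFrame (pull φ g' x) (A x)) / om E := by
  obtain ⟨h1, -⟩ := hA x hx
  have hself : ∀ y, g x (A x y) (A x y) = ‖y‖ ^ 2 := fun y => by
    rw [h1, real_inner_self_eq_norm_sq]
  have himg : {v : E | g x v v < 1} = (A x).toLinearMap '' ball (0 : E) 1 := by
    ext v
    simp only [mem_ofPred_eq, mem_image, mem_ball, dist_zero_right]
    constructor
    · intro hv
      refine ⟨(A x).symm v, ?_, by simp⟩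
      have h2 := hself ((A x).symm v)
      rw [LinearEquiv.apply_symm_apply] at h2
      rw [h2] at hv
      nlinarith [norm_nonneg ((A x).symm v)]
    · rintro ⟨y, hy, rfl⟩
      have h2 := hself y
      simp only [LinearEquiv.coe_coe]
      rw [h2]
      nlinarith [norm_nonneg y]
  set T : E →L[ℝ] E := LinearMap.toContinuousLinearMap (A x).toLinearMap with hT
  have hTdet : T.det = LinearMap.det (A x).toLinearMap := rfl
  have hd0 : |LinearMap.det (A x).toLinearMap| ≠ 0 :=
    abs_ne_zero.2 (LinearEquiv.isUnit_det' (A x)).ne_zero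
  have hvol : (volume : Measure E).real ((A x).toLinearMap '' ball (0 : E) 1) =
      |LinearMap.det (A x).toLinearMap| * om E := by
    rw [Measure.real, Measure.addHaar_image_linearMap, ENNReal.toReal_mul,
      ENNReal.toReal_ofReal (abs_nonneg _), om, Measure.real]
  have hint := integral_image_eq_integral_abs_det_fderiv_smul (volume : Measure E)
    (s := ball (0 : E) 1) (f := T) (f' := fun _ => T) measurableSet_ball
    (fun y _ => T.hasFDerivAt.hasFDerivWithinAt) ((A x).injective.injOn)
    fun v => √(pull φ g' x v v / g x v v)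
  have hTi : T '' ball (0 : E) 1 = (A x).toLinearMap '' ball (0 : E) 1 := rfl
  rw [hTi] at hint
  have hf : ∀ y, √(pull φ g' x (T y) (T y) / g x (T y) (T y)) =
      √(inFrame (pull φ g' x) (A x) (un y) (un y)) := by
    intro y
    have h2 : g x (T y) (T y) = ‖y‖ ^ 2 := hself y
    rw [h2, un]
    simp only [map_smul, smul_apply, smul_eq_mul]
    rw [← mul_assoc, ← mul_inv, ← pow_two, div_eq_inv_mul]
    rfl
  rw [stretch, meanQuot, himg, setAverage_eq, hvol]
  simp only [quot]
  rw [hint]
  simp only [hTdet, hf, smul_eq_mul]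
  rw [integral_const_mul, ← mn]
  field_simp

lemma stretch_nonneg (x : E) : 0 ≤ stretch g g' φ x := by
  rw [stretch, meanQuot, setAverage_eq, smul_eq_mul]
  exact mul_nonneg (inv_nonneg.2 measureReal_nonneg) (integral_nonneg fun _ => Real.sqrt_nonneg _)

lemma stretch_le (hn : 0 < Module.finrank ℝ E) (hg : IsMetric g) (hg' : IsMetric g') (hφ : IsBdryMap φ) {x : E}
    (hx : x ∈ closedBall (0 : E) 1) : stretch g g' φ x ≤ √(ntr (g x) (pull φ g' x)) := by
  obtain ⟨A, hA⟩ := exists_isFrame hg
  rw [stretch_frame hA hx, div_le_iff₀ om_pos, mul_comm]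
  exact mn_le_ntr hn hg' hφ hA hx

/-- the inner integral -/
lemma inner_eq (hn : 0 < Module.finrank ℝ E) (h : Simple g e L) {x : E} (hx : ‖x‖ < 1) :
    ∫⁻ z in S0, FG g L (G0 φ g') (x, z) =
      ENNReal.ofReal (om E * (stretch g g' φ x * dens (g x))) := by
  obtain ⟨A, hA⟩ := exists_isFrame (Simple_isMetric h)
  have h1 := fix_two (g' := g') (φ := φ) hn h hA hx
  rw [stretch_frame hA (mem_of_norm_lt hx)]
  have h2 : om E * (mn (inFrame (pull φ g' x) (A x)) / om E * dens (g x)) =
      dens (g x) * mn (inFrame (pull φ g' x) (A x)) := by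
    have := (om_pos (E := E)).ne'
    field_simp
  rw [h2, ← h1]
  rfl

lemma int_stretch (hn : 0 < Module.finrank ℝ E) (h : Simple g e L) (hg : IsMetric g') (hφ : IsBdryMap φ) :
    IntegrableOn (fun x => stretch g g' φ x * dens (g x)) (closedBall (0 : E) 1) := by
  have hgm := Simple_isMetric h
  have hom := om_pos (E := E)
  have hcs := cont_sqrt hgm hg hφ
  have hcd := (continuous_dens hgm.cont).continuousOn (s := closedBall (0 : E) 1)
  have hbd : IntegrableOn (fun x => √(ntr (g x) (pull φ g' x)) * dens (g x))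
      (closedBall (0 : E) 1) := intOn (hcs.mul hcd)
  have haem : AEMeasurable (fun x => ∫⁻ z in S0, FG g L (G0 φ g') (x, z))
      (volume.restrict (ball (0 : E) 1)) :=
    (aem_FG h (continuous_G0 hg.cont hφ.smooth)).lintegral_prod_right'
  have h1 : AEMeasurable (fun x => stretch g g' φ x * dens (g x))
      (volume.restrict (ball (0 : E) 1)) := by
    refine (haem.ennreal_toReal.const_mul (om E)⁻¹).congr ?_
    filter_upwards [ae_restrict_mem measurableSet_ball] with x hx
    rw [inner_eq hn h (by simpa using hx), ENNReal.toReal_ofReal (mul_nonneg hom.le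
      (mul_nonneg (stretch_nonneg x) (dens_nonneg _))), inv_mul_cancel_left₀ hom.ne']
  rw [Measure.restrict_congr_set closedBall_ae] at h1
  refine Integrable.mono' hbd h1.aestronglyMeasurable ?_
  filter_upwards [ae_restrict_mem measurableSet_closedBall] with x hx
  rw [Real.norm_of_nonneg (mul_nonneg (stretch_nonneg x) (dens_nonneg _))]
  exact mul_le_mul_of_nonneg_right (stretch_le hn hgm hg hφ hx) (dens_nonneg _)

/-- the mean energy -/
lemma II_stretch (hn : 0 < Module.finrank ℝ E) (h : Simple g e L) (hg : IsMetric g') (hφ : IsBdryMap φ) :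
    II g L (G0 φ g') =
      ENNReal.ofReal (om E * ∫ x in closedBall (0 : E) 1, stretch g g' φ x * dens (g x)) := by
  have hom := om_pos (E := E)
  have hi := int_stretch hn h hg hφ
  rw [II, setLIntegral_congr_fun measurableSet_ball fun x hx =>
    inner_eq hn h (by simpa using hx), setLIntegral_congr closedBall_ae, ← integral_const_mul,
    ofReal_integral_eq_lintegral_ofReal (hi.const_mul _)]
  exact Eventually.of_forall fun x => mul_nonneg hom.le
    (mul_nonneg (stretch_nonneg x) (dens_nonneg _))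

/-- the basic inequality -/
theorem stretch_ge (hn : 0 < Module.finrank ℝ E) (h : Simple g e L) (hg : IsMetric g') (hφ : IsBdryMap φ)
    (hd : ∀ p ∈ sphere (0 : E) 1, ∀ q ∈ sphere (0 : E) 1, gdist g p q ≤ gdist g' p q) :
    vol g ≤ ∫ x in closedBall (0 : E) 1, stretch g g' φ x * dens (g x) := by
  have h1 := ton h hg hφ hd
  rw [← II_G0, total_vol hn h, II_stretch hn h hg hφ] at h1
  have hom := om_pos (E := E)
  have h2 : 0 ≤ ∫ x in closedBall (0 : E) 1, stretch g g' φ x * dens (g x) :=
    integral_nonneg fun x => mul_nonneg (stretch_nonneg x) (dens_nonneg _)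
  have h3 := (ENNReal.ofReal_le_ofReal_iff (mul_nonneg hom.le h2)).1 h1
  nlinarith

/-- the equality case -/
theorem stretch_len (hn : 0 < Module.finrank ℝ E) (h : Simple g e L) (hg : IsMetric g') (hφ : IsBdryMap φ)
    (hd : ∀ p ∈ sphere (0 : E) 1, ∀ q ∈ sphere (0 : E) 1, gdist g p q ≤ gdist g' p q)
    (hle : ∫ x in closedBall (0 : E) 1, stretch g g' φ x * dens (g x) ≤ vol g)
    {p q : E} (hp : p ∈ sphere (0 : E) 1) (hq : q ∈ sphere (0 : E) 1) (hpq : p ≠ q) {γ u : ℝ → E}
    (hγ : IsGeod g γ u) (h0 : γ 0 = p) (h1 : γ 1 = q) :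
    ∫ s in (0 : ℝ)..1, √(pull φ g' (γ s) (u s) (u s)) = rho g L p q := by
  have hom := om_pos (E := E)
  refine len_of_II h hg hφ hd ?_ ?_ hp hq hpq hγ h0 h1
  · rw [total_vol hn h]; exact ENNReal.ofReal_ne_top
  · rw [total_vol hn h, II_stretch hn h hg hφ]
    exact ENNReal.ofReal_le_ofReal (by nlinarith)

/-- the cone inequality for the mean stretch -/
theorem stretch_cone (hn : 0 < Module.finrank ℝ E) (h : Simple g e L) (hg : IsMetric g') (hφ : IsBdryMap φ)
    (hd : ∀ p ∈ sphere (0 : E) 1, ∀ q ∈ sphere (0 : E) 1, gdist g p q ≤ gdist g' p q)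
    (hbij : BijOn φ (closedBall (0 : E) 1) (closedBall (0 : E) 1))
    (hcone : ∀ x ∈ closedBall (0 : E) 1, stretch g g' φ x ≤ 1 + (jac g g' φ x - 1) / Module.finrank ℝ E) :
    (∫ x in closedBall (0 : E) 1, stretch g g' φ x * dens (g x)) ≤ vol g + (vol g' - vol g) / Module.finrank ℝ E ∧
      vol g ≤ vol g' := by
  have hgm := Simple_isMetric h
  have hcd := (continuous_dens hgm.cont).continuousOn (s := closedBall (0 : E) 1)
  have hcj := cont_jac hgm hg hφ
  have hn' : (0 : ℝ) < Module.finrank ℝ E := by exact_mod_cast hn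
  have e1 : ∀ x, (1 + (jac g g' φ x - 1) / Module.finrank ℝ E) * dens (g x) =
      (1 - 1 / Module.finrank ℝ E) * dens (g x) + (1 / Module.finrank ℝ E) * (jac g g' φ x * dens (g x)) := fun x => by
    field_simp; ring
  have i1 : IntegrableOn (fun x => (1 - 1 / (Module.finrank ℝ E : ℝ)) * dens (g x)) (closedBall (0 : E) 1) :=
    intOn (continuousOn_const.mul hcd)
  have i2 : IntegrableOn (fun x => (1 / (Module.finrank ℝ E : ℝ)) * (jac g g' φ x * dens (g x)))
      (closedBall (0 : E) 1) := intOn (continuousOn_const.mul (hcj.mul hcd))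
  have i4 : IntegrableOn (fun x => (1 + (jac g g' φ x - 1) / Module.finrank ℝ E) * dens (g x))
      (closedBall (0 : E) 1) := by
    simp only [e1]; exact i1.add i2
  have e2 : ∫ x in closedBall (0 : E) 1, (1 + (jac g g' φ x - 1) / Module.finrank ℝ E) * dens (g x) =
      vol g + (vol g' - vol g) / Module.finrank ℝ E := by
    simp only [e1]
    rw [integral_add i1 i2, integral_const_mul, integral_const_mul, int_jac hgm hg hφ hbij]
    rw [← vol]
    field_simp; ring
  have h1 : (∫ x in closedBall (0 : E) 1, stretch g g' φ x * dens (g x)) ≤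
      vol g + (vol g' - vol g) / Module.finrank ℝ E := by
    rw [← e2]
    refine setIntegral_mono_on (int_stretch hn h hg hφ) i4 measurableSet_closedBall fun x hx => ?_
    exact mul_le_mul_of_nonneg_right (hcone x hx) (dens_nonneg _)
  refine ⟨h1, ?_⟩
  have h2 := stretch_ge hn h hg hφ hd
  have h3 : 0 ≤ (vol g' - vol g) / Module.finrank ℝ E := by linarith
  have h4 := mul_nonneg h3 hn'.le
  rw [div_mul_cancel₀ _ hn'.ne'] at h4
  linarith

lemma stretch_self (hn : 0 < Module.finrank ℝ E) (hg : IsMetric g) {x : E} (hx : x ∈ closedBall (0 : E) 1)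
    (hiso : pull φ g' x = g x) : stretch g g' φ x = 1 := by
  obtain ⟨A, hA⟩ := exists_isFrame hg
  have hnt := nontriv hn
  rw [stretch_frame hA hx, hiso]
  have h1 : mn (inFrame (g x) (A x)) = om E := by
    have h2 : ∀ y ∈ ball (0 : E) 1 \ {0}, √(inFrame (g x) (A x) (un y) (un y)) = 1 := by
      intro y hy
      have hy0 : ‖y‖ ≠ 0 := norm_ne_zero_iff.2 fun h0 => hy.2 h0
      rw [inFrame_apply, (hA x hx).1, real_inner_self_eq_norm_sq, un, norm_smul, norm_inv,
        norm_norm, inv_mul_cancel₀ hy0]
      simp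
    rw [mn, ← setIntegral_congr_set (sdiff_null_ae_eq_self (measure_singleton (0 : E))),
      setIntegral_congr_fun (measurableSet_ball.diff (measurableSet_singleton 0)) h2,
      setIntegral_congr_set (sdiff_null_ae_eq_self (measure_singleton (0 : E))),
      setIntegral_const, smul_eq_mul, mul_one, om]
  rw [h1, div_self om_pos.ne']

end Pool.Agent.W9h56.BE
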